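import Pool.Agent.W_4b1b5d_h34.Painleve

set_option autoImplicit false

open Set Filter Topology Polynomial

namespace Pool.W4b1b5d.H13

/-- the exceptional set -/
def NN (g : ℂ[X]) (CV : Set ℂ) : Set ℂ := {T | g.eval T ∈ CV ∨ g.derivative.eval T = 0}

theorem NN_finite {g : ℂ[X]} (hg : 1 ≤ g.natDegree) {CV : Set ℂ} (hCV : CV.Finite) :
    (NN g CV).Finite := by
  have h1 : {T | g.eval T ∈ CV}.Finite := by
    have : {T | g.eval T ∈ CV} = ⋃ c ∈ CV, {T | g.eval T = c} := by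
      ext T; simp
    rw [this]
    refine hCV.biUnion fun c _ => ?_
    have hne : g - C c ≠ 0 := by
      intro h
      have h2 : g = C c := sub_eq_zero.1 h
      rw [h2, natDegree_C] at hg
      omega
    refine (Polynomial.finite_setOf_isRoot hne).subset fun T hT => ?_
    show (g - C c).IsRoot T
    rw [IsRoot.def, eval_sub, eval_C]
    exact sub_eq_zero.2 hT
  have h2 : {T | g.derivative.eval T = 0}.Finite := by
    have hne : g.derivative ≠ 0 := by
      intro h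
      have := natDegree_eq_zero_of_derivative_eq_zero h
      omega
    exact Polynomial.finite_setOf_isRoot hne
  exact h1.union h2

/-- Differentiability across the real curves. -/
theorem diff_cross {g : ℂ[X]} (hg : 1 ≤ g.natDegree) {CV : Set ℂ} (hCV : CV.Finite) {f : ℂ → ℂ}
    (h1 : ∀ T, (g.eval T).im ≠ 0 → T ∉ NN g CV → DifferentiableAt ℂ f T)
    (h2 : ∀ T, T ∉ NN g CV → ContinuousAt f T) {T0 : ℂ} (hT0 : T0 ∉ NN g CV) :
    DifferentiableAt ℂ f T0 := by
  have hopen : IsOpen (NN g CV)ᶜ := (NN_finite hg hCV).isClosed.isOpen_compl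
  have hd : ∀ T, HasDerivAt (fun T => g.eval T) (g.derivative.eval T) T := fun T => g.hasDerivAt T
  have hs : HasStrictDerivAt (fun T => g.eval T) (g.derivative.eval T0) T0 := g.hasStrictDerivAt T0
  have hne : g.derivative.eval T0 ≠ 0 := fun h => hT0 (Or.inr h)
  set e := (hs.hasStrictFDerivAt_equiv hne).toOpenPartialHomeomorph (fun T => g.eval T) with he
  have hecoe : ∀ T, e T = g.eval T := fun T => rfl
  have hsrc : T0 ∈ e.source := (hs.hasStrictFDerivAt_equiv hne).mem_toOpenPartialHomeomorph_source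
  set U : Set ℂ := e.target ∩ e.symm ⁻¹' (NN g CV)ᶜ with hU
  have hUo : IsOpen U := e.symm.isOpen_inter_preimage hopen
  have hsymm : ∀ w ∈ U, HasDerivAt e.symm (g.derivative.eval (e.symm w))⁻¹ w := by
    intro w hw
    refine e.hasDerivAt_symm hw.1 (fun h => hw.2 (Or.inr h)) ?_
    exact hd _
  have hge : ∀ w ∈ U, g.eval (e.symm w) = w := fun w hw => e.right_inv hw.1
  have hP := Pool.W4b1b5d.H34.painleve hUo (f := fun w => f (e.symm w)) ?_ ?_
  · have hmem : g.eval T0 ∈ U := ⟨e.map_source hsrc, by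
      show e.symm (g.eval T0) ∈ (NN g CV)ᶜ
      rw [show g.eval T0 = e T0 from rfl, e.left_inv hsrc]; exact hT0⟩
    have h3 := (hP _ hmem).differentiableAt (hUo.mem_nhds hmem)
    have h4 : DifferentiableAt ℂ (fun T => f (e.symm (g.eval T))) T0 :=
      DifferentiableAt.comp (f := fun T => g.eval T) (g := fun w => f (e.symm w)) T0 h3
        (hd T0).differentiableAt
    refine h4.congr_of_eventuallyEq ?_
    filter_upwards [e.open_source.mem_nhds hsrc] with T hT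
    rw [show g.eval T = e T from rfl, e.left_inv hT]
  · intro w hw
    exact ((h2 _ hw.2).comp (f := e.symm) (hsymm w hw).continuousAt).continuousWithinAt
  · intro w hw him
    have h5 : DifferentiableAt ℂ f (e.symm w) := h1 _ (by rw [hge w hw]; exact him) hw.2
    exact h5.comp w (hsymm w hw).differentiableAt

/-- (E1) -/
theorem entire {g : ℂ[X]} (hg : 1 ≤ g.natDegree) {CV : Set ℂ} (hCV : CV.Finite) {f : ℂ → ℂ}
    (h1 : ∀ T, (g.eval T).im ≠ 0 → T ∉ NN g CV → DifferentiableAt ℂ f T)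
    (h2 : ∀ T, T ∉ NN g CV → ContinuousAt f T)
    (h3 : ∀ T ∈ NN g CV, ∃ B : ℝ, ∀ᶠ S in 𝓝 T, S ∉ NN g CV → ‖f S‖ ≤ B) :
    ∃ F : ℂ → ℂ, Differentiable ℂ F ∧ ∀ T, T ∉ NN g CV → F T = f T := by
  have hfin := NN_finite hg hCV
  have hopen : IsOpen (NN g CV)ᶜ := hfin.isClosed.isOpen_compl
  have hF : ∀ T, T ∉ NN g CV → limUnder (𝓝[≠] T) f = f T := by
    intro T hT
    have := (h2 T hT).tendsto.mono_left (nhdsWithin_le_nhds (s := {T}ᶜ))
    exact this.limUnder_eq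
  refine ⟨fun T => limUnder (𝓝[≠] T) f, fun T0 => ?_, hF⟩
  by_cases hT0 : T0 ∈ NN g CV
  · obtain ⟨B, hB⟩ := h3 T0 hT0
    -- a neighbourhood which meets `NN` only in `T0`
    have hn : (NN g CV \ {T0})ᶜ ∈ 𝓝 T0 :=
      (hfin.subset sdiff_subset).isClosed.isOpen_compl.mem_nhds (fun h => h.2 rfl)
    set s := {S | S ∉ NN g CV → ‖f S‖ ≤ B} ∩ (NN g CV \ {T0})ᶜ with hs
    have hsn : s ∈ 𝓝 T0 := inter_mem hB hn
    have hsN : ∀ S ∈ s \ {T0}, S ∉ NN g CV := fun S hS hcon => hS.1.2 ⟨hcon, hS.2⟩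
    have h4 := Complex.differentiableOn_update_limUnder_of_bddAbove (f := f) hsn
      (fun S hS => (diff_cross hg hCV h1 h2 (hsN S hS)).differentiableWithinAt)
      ⟨B, by rintro _ ⟨S, hS, rfl⟩; exact hS.1.1 (hsN S hS)⟩
    refine (h4.differentiableAt hsn).congr_of_eventuallyEq ?_
    filter_upwards [hsn] with S hS
    by_cases hST : S = T0
    · subst hST; simp
    · rw [Function.update_of_ne hST]
      exact hF S (hsN S ⟨hS, hST⟩)
  · refine (diff_cross hg hCV h1 h2 hT0).congr_of_eventuallyEq ?_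
    filter_upwards [hopen.mem_nhds hT0] with S hS using hF S hS

/-- (E2) -/
theorem entire_lin {g : ℂ[X]} (hg : 1 ≤ g.natDegree) {CV : Set ℂ} (hCV : CV.Finite) {f : ℂ → ℂ}
    (h1 : ∀ T, (g.eval T).im ≠ 0 → T ∉ NN g CV → DifferentiableAt ℂ f T)
    (h2 : ∀ T, T ∉ NN g CV → ContinuousAt f T)
    (h3 : ∀ T ∈ NN g CV, ∃ B : ℝ, ∀ᶠ S in 𝓝 T, S ∉ NN g CV → ‖f S‖ ≤ B)
    (h4 : ∃ C R : ℝ, ∀ T, R ≤ ‖T‖ → T ∉ NN g CV → ‖f T - T‖ ≤ C) :
    ∃ A : ℂ, ∀ T, T ∉ NN g CV → f T = T - A := by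
  obtain ⟨F, hFd, hF⟩ := entire hg hCV h1 h2 h3
  obtain ⟨C, R, hCR⟩ := h4
  have hfin := NN_finite hg hCV
  obtain ⟨R', hR'⟩ := hfin.isBounded.exists_norm_le
  have hd : Differentiable ℂ fun T => F T - T := hFd.sub differentiable_id
  have hb : Bornology.IsBounded (range fun T => F T - T) := by
    obtain ⟨M, hM⟩ := (isCompact_closedBall (0 : ℂ) (max R (R' + 1))).exists_bound_of_continuousOn
      hd.continuous.continuousOn
    refine isBounded_iff_forall_norm_le.2 ⟨max M C, ?_⟩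
    rintro _ ⟨T, rfl⟩
    rcases le_total ‖T‖ (max R (R' + 1)) with h | h
    · exact (hM T (by simpa using h)).trans (le_max_left _ _)
    · have hT : T ∉ NN g CV := fun hcon => by
        have := hR' T hcon
        have := (le_max_right R (R' + 1)).trans h
        linarith
      show ‖F T - T‖ ≤ _
      rw [hF T hT]
      exact (hCR T ((le_max_left _ _).trans h) hT).trans (le_max_right _ _)
  refine ⟨-(F 0 - 0), fun T hT => ?_⟩
  have := hd.apply_eq_apply_of_bounded hb T 0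
  rw [← hF T hT]
  linear_combination this

/-- (E3) the algebra of the conclusion -/
theorem alg_real {D : Set ℂ} (hD : ∀ T ∈ D, T.im ≠ 0) (hDc : ∀ T ∈ D, (starRingEnd ℂ) T ∈ D)
    (hDd : ∀ T, T ∈ closure D) {l : ℝ} (hl : 0 < l) {z : ℂ → ℂ} (hz : ∀ T ∈ D, l ≤ ‖z T‖)
    (hb : ∀ T0, ∃ B : ℝ, ∀ᶠ T in 𝓝 T0, T ∈ D → ‖z T‖ ≤ B) {A : ℂ}
    (hf : ∀ T ∈ D, z T + (l : ℂ) ^ 2 / (starRingEnd ℂ) (z ((starRingEnd ℂ) T)) = T - A) :
    A.im = 0 ∧ ∀ T ∈ D, z T + (l : ℂ) ^ 2 / z T = T - A := by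
  have hz0 : ∀ T ∈ D, z T ≠ 0 := fun T hT h => by
    have := hz T hT
    rw [h, norm_zero] at this
    linarith
  have key : ∀ T ∈ D, (T - A) * (starRingEnd ℂ) (z ((starRingEnd ℂ) T)) =
      (T - (starRingEnd ℂ) A) * z T := by
    intro T hT
    have e1 := hf T hT
    have e2 := congrArg (starRingEnd ℂ) (hf _ (hDc T hT))
    simp only [map_add, map_div₀, map_pow, map_sub, Complex.conj_conj, Complex.conj_ofReal] at e2
    have n1 : z T ≠ 0 := hz0 T hT
    have n2 : (starRingEnd ℂ) (z ((starRingEnd ℂ) T)) ≠ 0 :=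
      (_root_.map_ne_zero _).2 (hz0 _ (hDc T hT))
    rw [← e1, ← e2]
    field_simp
  have hA : A.im = 0 := by
    by_contra hne
    have hAA : 0 < ‖A - (starRingEnd ℂ) A‖ := by
      rw [norm_pos_iff, sub_ne_zero]
      intro h
      exact hne (Complex.conj_eq_iff_im.1 h.symm)
    obtain ⟨B, hB⟩ := hb ((starRingEnd ℂ) A)
    have hcont : Tendsto (starRingEnd ℂ) (𝓝 A) (𝓝 ((starRingEnd ℂ) A)) :=
      Complex.continuous_conj.tendsto A
    have hB' : ∀ᶠ T in 𝓝 A, (starRingEnd ℂ) T ∈ D → ‖z ((starRingEnd ℂ) T)‖ ≤ B :=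
      hcont.eventually hB
    have h1 : ∃ᶠ T in 𝓝 A, T ∈ D := mem_closure_iff_frequently.1 (hDd A)
    have h2 : ∃ᶠ T in 𝓝 A, l * ‖T - (starRingEnd ℂ) A‖ ≤ B * ‖T - A‖ := by
      refine (h1.and_eventually hB').mono fun T hT => ?_
      have h3 := key T hT.1
      have h4 := congrArg norm h3
      rw [norm_mul, norm_mul, RCLike.norm_conj] at h4
      have h5 := hT.2 (hDc T hT.1)
      have h6 := hz T hT.1
      calc l * ‖T - (starRingEnd ℂ) A‖ ≤ ‖z T‖ * ‖T - (starRingEnd ℂ) A‖ := by gcongr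
        _ = ‖T - A‖ * ‖z ((starRingEnd ℂ) T)‖ := by rw [h4]; ring
        _ ≤ ‖T - A‖ * B := by gcongr
        _ = B * ‖T - A‖ := by ring
    have hclosed : IsClosed {T : ℂ | l * ‖T - (starRingEnd ℂ) A‖ ≤ B * ‖T - A‖} :=
      isClosed_le (by fun_prop) (by fun_prop)
    have h7 : A ∈ {T : ℂ | l * ‖T - (starRingEnd ℂ) A‖ ≤ B * ‖T - A‖} := by
      rw [← hclosed.closure_eq, mem_closure_iff_frequently]
      exact h2
    have h8 : l * ‖A - (starRingEnd ℂ) A‖ ≤ B * ‖A - A‖ := h7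
    rw [sub_self, norm_zero, mul_zero] at h8
    have := mul_pos hl hAA
    linarith
  refine ⟨hA, fun T hT => ?_⟩
  have hcA : (starRingEnd ℂ) A = A := Complex.conj_eq_iff_im.2 hA
  have h3 := key T hT
  rw [hcA] at h3
  have hTA : T - A ≠ 0 := by
    rw [sub_ne_zero]
    rintro rfl
    exact hD _ hT hA
  have h4 := mul_left_cancel₀ hTA h3
  have h5 := hf T hT
  rw [h4] at h5
  exact h5

/-- (E4) -/
theorem bdry_eq {l : ℝ} {zp zm : ℂ}
    (h : zp = zm ∨ (‖zp‖ = l ∧ ‖zm‖ = l)) (hl : 0 < l) :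
    zp + (l : ℂ) ^ 2 / (starRingEnd ℂ) zm = zm + (l : ℂ) ^ 2 / (starRingEnd ℂ) zp := by
  rcases h with h | ⟨h1, h2⟩
  · rw [h]
  · have key : ∀ z : ℂ, ‖z‖ = l → (l : ℂ) ^ 2 / (starRingEnd ℂ) z = z := by
      intro z hz
      have hz0 : z ≠ 0 := by
        rintro rfl
        rw [norm_zero] at hz
        linarith
      rw [div_eq_iff ((_root_.map_ne_zero _).2 hz0), Complex.mul_conj, Complex.normSq_eq_norm_sq, hz]
      push_cast
      ring
    rw [key zp h1, key zm h2, add_comm]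

/-- (E5) the identity of the two functions of `Y`. -/
theorem ident {R : ℂ → ℂ} (hR : AnalyticOnNhd ℂ R {0}ᶜ) {g : ℂ[X]} {A : ℂ} {c : ℂ} {z : ℂ → ℂ}
    {T0 : ℂ} (hz : ContinuousAt z T0) (h0 : z T0 ≠ 0)
    (h1 : ∀ᶠ T in 𝓝 T0, z T + c / z T = T - A) (h2 : ∀ᶠ T in 𝓝 T0, R (z T) = g.eval T) {Y : ℂ}
    (hY : Y ≠ 0) : R Y = g.eval (Y + A + c / Y) := by
  have hg : AnalyticOnNhd ℂ (fun Y => g.eval (Y + A + c / Y)) {0}ᶜ := by
    intro Y hY
    have hi : AnalyticAt ℂ (fun Y : ℂ => Y + A + c / Y) Y :=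
      (analyticAt_id.add analyticAt_const).add (analyticAt_const.div analyticAt_id hY)
    exact (AnalyticOnNhd.eval_polynomial g _ (mem_univ _)).comp' hi
  have hcon : IsPreconnected ({0}ᶜ : Set ℂ) :=
    (isConnected_compl_singleton_of_one_lt_rank (by simp) 0).isPreconnected
  have hfreq : ∃ᶠ Y in 𝓝[≠] (z T0), R Y = g.eval (Y + A + c / Y) := by
    have ht : Tendsto z (𝓝[≠] T0) (𝓝[≠] (z T0)) := by
      refine tendsto_nhdsWithin_iff.2 ⟨hz.tendsto.mono_left nhdsWithin_le_nhds, ?_⟩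
      have h1' : ∀ᶠ T in 𝓝[≠] T0, z T + c / z T = T - A := nhdsWithin_le_nhds h1
      filter_upwards [h1', self_mem_nhdsWithin] with T hT hne
      intro hcon
      apply hne
      have e0 := h1.self_of_nhds
      rw [mem_singleton_iff.1 hcon, e0] at hT
      show T = T0
      linear_combination -hT
    have hev : ∀ᶠ T in 𝓝[≠] T0, R (z T) = g.eval (z T + A + c / z T) := by
      have h1' : ∀ᶠ T in 𝓝[≠] T0, z T + c / z T = T - A := nhdsWithin_le_nhds h1
      have h2' : ∀ᶠ T in 𝓝[≠] T0, R (z T) = g.eval T := nhdsWithin_le_nhds h2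
      filter_upwards [h1', h2'] with T e1 e2
      rw [e2]
      congr 1
      linear_combination -e1
    exact ht.frequently hev.frequently
  exact (hR.eqOn_of_preconnected_of_frequently_eq hg hcon h0 hfreq) hY

end Pool.W4b1b5d.H13
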