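import Mathlib

set_option autoImplicit false

open Set Filter MeasureTheory Topology Complex

namespace Pool.W4b1b5d.H13

/-- A nowhere vanishing continuous real function has constant sign. -/
theorem same_sign {f : ℝ → ℝ} (hf : Continuous f) (h0 : ∀ r, f r ≠ 0) (r r' : ℝ) :
    0 < f r * f r' := by
  by_contra hcon
  push Not at hcon
  have h1 : f r * f r' < 0 := lt_of_le_of_ne hcon (mul_ne_zero (h0 r) (h0 r'))
  have hex : (0 : ℝ) ∈ f '' (univ : Set ℝ) := by
    have hc : (f '' (univ : Set ℝ)).OrdConnected :=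
      (isPreconnected_univ.image f hf.continuousOn).ordConnected
    rcases mul_neg_iff.1 h1 with ⟨a, b⟩ | ⟨a, b⟩
    · exact hc.out (mem_image_of_mem f (mem_univ r')) (mem_image_of_mem f (mem_univ r))
        ⟨b.le, a.le⟩
    · exact hc.out (mem_image_of_mem f (mem_univ r)) (mem_image_of_mem f (mem_univ r'))
        ⟨a.le, b.le⟩
  obtain ⟨t, -, ht⟩ := hex
  exact h0 t ht

theorem sq_im {s : ℂ} : (s ^ 2).im = 2 * (s.re * s.im) := by
  rw [sq, mul_im]; ring

theorem sq_re {s : ℂ} : (s ^ 2).re = s.re ^ 2 - s.im ^ 2 := by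
  rw [sq, mul_re]; ring

/-- F1 (pointwise): a square root of `(V - ζ)/4`, `V` real, `ζ` not real, stays in an open
quadrant. -/
theorem quadrant {s : ℝ → ℂ} (hs : Continuous s) {V : ℝ → ℝ} {ζ : ℂ} (hζ : ζ.im ≠ 0)
    (h : ∀ r, s r ^ 2 = (V r - ζ) / 4) :
    (∀ r, (s r).re * (s r).im = -ζ.im / 8) ∧
    (∀ r r', 0 < (s r).re * (s r').re) ∧ ∀ r r', 0 < (s r).im * (s r').im := by
  have h1 : ∀ r, (s r).re * (s r).im = -ζ.im / 8 := by
    intro r
    have h2 := congrArg Complex.im (h r)
    rw [sq_im] at h2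
    have h3 : ((V r - ζ) / 4 : ℂ).im = -ζ.im / 4 := by
      rw [show ((V r - ζ) / 4 : ℂ) = ((V r - ζ)) * ((1 / 4 : ℝ) : ℂ) by push_cast; ring,
        Complex.im_mul_ofReal, sub_im, ofReal_im]
      ring
    rw [h3] at h2
    linarith
  have hne : ∀ r, (s r).re * (s r).im ≠ 0 := fun r => by
    rw [h1]
    intro hcon
    apply hζ
    linarith
  exact ⟨h1, same_sign (Complex.continuous_re.comp hs) fun r => (mul_ne_zero_iff.1 (hne r)).1,
    same_sign (Complex.continuous_im.comp hs) fun r => (mul_ne_zero_iff.1 (hne r)).2⟩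

theorem int_re {s : ℝ → ℂ} (hs : Continuous s) (a b : ℝ) :
    (∫ r in a..b, s r).re = ∫ r in a..b, (s r).re := by
  have := Complex.reCLM.intervalIntegral_comp_comm (μ := volume) (f := s) (a := a) (b := b)
    (hf := hs.intervalIntegrable a b)
  simpa using this.symm

theorem int_im {s : ℝ → ℂ} (hs : Continuous s) (a b : ℝ) :
    (∫ r in a..b, s r).im = ∫ r in a..b, (s r).im := by
  have := Complex.imCLM.intervalIntegral_comp_comm (μ := volume) (f := s) (a := a) (b := b)
    (hf := hs.intervalIntegrable a b)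
  simpa using this.symm

theorem int_pos {f : ℝ → ℝ} (hf : Continuous f) (h : ∀ r, 0 < f r) : 0 < ∫ r in (0 : ℝ)..1, f r :=
  intervalIntegral.intervalIntegral_pos_of_pos_on (hf.intervalIntegrable _ _) (fun x _ => h x)
    zero_lt_one

/-- the integral has the same sign as the function -/
theorem int_sign {f : ℝ → ℝ} (hf : Continuous f) (h : ∀ r r', 0 < f r * f r') :
    0 < f 0 * ∫ r in (0 : ℝ)..1, f r := by
  rw [← intervalIntegral.integral_const_mul]
  exact int_pos (continuous_const.mul hf) fun r => h 0 r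

/-- F1: the square of the integral over the loop is not real. -/
theorem loop_nonreal {s : ℝ → ℂ} (hs : Continuous s) {V : ℝ → ℝ} {ζ : ℂ} (hζ : ζ.im ≠ 0)
    (h : ∀ r, s r ^ 2 = (V r - ζ) / 4) :
    (∫ r in (0 : ℝ)..1, s r).re ≠ 0 ∧ (∫ r in (0 : ℝ)..1, s r).im ≠ 0 ∧
      ((∫ r in (0 : ℝ)..1, s r) ^ 2).im ≠ 0 := by
  obtain ⟨-, h2, h3⟩ := quadrant hs hζ h
  have a := int_sign (Complex.continuous_re.comp hs) h2
  have b := int_sign (Complex.continuous_im.comp hs) h3
  have a' : (∫ r in (0 : ℝ)..1, s r).re ≠ 0 := by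
    rw [int_re hs]
    intro hcon
    simp only [Function.comp_apply, hcon, mul_zero, lt_self_iff_false] at a
  have b' : (∫ r in (0 : ℝ)..1, s r).im ≠ 0 := by
    rw [int_im hs]
    intro hcon
    simp only [Function.comp_apply, hcon, mul_zero, lt_self_iff_false] at b
  exact ⟨a', b', by rw [sq_im]; exact mul_ne_zero two_ne_zero (mul_ne_zero a' b')⟩

/-- a function with `0 ≤ f r * f r'` has constant sign -/
theorem sign_of {f : ℝ → ℝ} (h : ∀ r r', 0 ≤ f r * f r') :
    (∀ r, 0 ≤ f r) ∨ ∀ r, f r ≤ 0 := by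
  by_cases h0 : ∃ r, 0 < f r
  · obtain ⟨r0, h0⟩ := h0
    left
    intro r
    by_contra hcon
    push Not at hcon
    have := h r0 r
    have := mul_neg_of_pos_of_neg h0 hcon
    linarith
  · push Not at h0
    exact Or.inr h0

theorem zero_of_int {f : ℝ → ℝ} (hf : Continuous f) (h : ∀ r, 0 ≤ f r)
    (h0 : ∫ r in (0 : ℝ)..1, f r = 0) (r : ℝ) (hr : r ∈ Icc (0 : ℝ) 1) : f r = 0 := by
  by_contra hne
  have hpos : 0 < f r := lt_of_le_of_ne (h r) (Ne.symm hne)
  have := intervalIntegral.integral_pos (a := (0 : ℝ)) (b := 1) zero_lt_one hf.continuousOn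
    (fun x _ => h x) ⟨r, hr, hpos⟩
  linarith

/-- F2: two real labels with the same real loop integral (up to sign) are equal. -/
theorem loop_real {s t : ℝ → ℂ} (hs : Continuous s) (ht : Continuous t) {V : ℝ → ℝ}
    {a b : ℝ} (hsV : ∀ r, s r ^ 2 = (((V r - a) / 4 : ℝ) : ℂ))
    (htV : ∀ r, t r ^ 2 = (((V r - b) / 4 : ℝ) : ℂ))
    (hs1 : ∀ r r', 0 ≤ (s r).re * (s r').re) (hs2 : ∀ r r', 0 ≤ (s r).im * (s r').im)
    (ht1 : ∀ r r', 0 ≤ (t r).re * (t r').re) (ht2 : ∀ r r', 0 ≤ (t r).im * (t r').im)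
    (him : (∫ r in (0 : ℝ)..1, s r).im = 0)
    (heq : (∫ r in (0 : ℝ)..1, s r) = (∫ r in (0 : ℝ)..1, t r) ∨
      (∫ r in (0 : ℝ)..1, s r) = -(∫ r in (0 : ℝ)..1, t r)) : a = b := by
  have him' : (∫ r in (0 : ℝ)..1, t r).im = 0 := by
    rcases heq with h | h
    · rw [← h]; exact him
    · rw [h, neg_im] at him; linarith
  -- the imaginary parts vanish on the loop
  have key : ∀ {s : ℝ → ℂ} {c : ℝ}, Continuous s → (∀ r, s r ^ 2 = (((V r - c) / 4 : ℝ) : ℂ)) →
      (∀ r r', 0 ≤ (s r).re * (s r').re) → (∀ r r', 0 ≤ (s r).im * (s r').im) →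
      (∫ r in (0 : ℝ)..1, s r).im = 0 →
      (∀ r ∈ Icc (0 : ℝ) 1, c ≤ V r) ∧ |(∫ r in (0 : ℝ)..1, s r).re| =
        ∫ r in (0 : ℝ)..1, Real.sqrt ((V r - c) / 4) := by
    intro s c hs hV h1 h2 h3
    rw [int_im hs] at h3
    have hz : ∀ r ∈ Icc (0 : ℝ) 1, (s r).im = 0 := by
      rcases sign_of h2 with h | h
      · exact zero_of_int (Complex.continuous_im.comp hs) h h3
      · intro r hr
        have := zero_of_int (f := fun r => -(s r).im) (Complex.continuous_im.comp hs).neg
          (fun r => by have := h r; linarith)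
          (by rw [intervalIntegral.integral_neg, h3, neg_zero]) r hr
        linarith
    have hre : ∀ r ∈ Icc (0 : ℝ) 1, (V r - c) / 4 = (s r).re ^ 2 := by
      intro r hr
      have := congrArg Complex.re (hV r)
      rw [sq_re, hz r hr, Complex.ofReal_re] at this
      linarith
    refine ⟨fun r hr => ?_, ?_⟩
    · have := hre r hr
      nlinarith [sq_nonneg (s r).re]
    · rw [int_re hs]
      have e1 : ∫ r in (0 : ℝ)..1, Real.sqrt ((V r - c) / 4) = ∫ r in (0 : ℝ)..1, |(s r).re| := by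
        refine intervalIntegral.integral_congr fun r hr => ?_
        rw [uIcc_of_le zero_le_one] at hr
        show Real.sqrt ((V r - c) / 4) = |(s r).re|
        rw [hre r hr, Real.sqrt_sq_eq_abs]
      rw [e1]
      rcases sign_of h1 with h | h
      · rw [abs_of_nonneg (intervalIntegral.integral_nonneg zero_le_one fun r _ => h r)]
        exact intervalIntegral.integral_congr fun r _ => (abs_of_nonneg (h r)).symm
      · have e2 : ∫ r in (0 : ℝ)..1, |(s r).re| = ∫ r in (0 : ℝ)..1, -(s r).re :=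
          intervalIntegral.integral_congr fun r _ => abs_of_nonpos (h r)
        rw [e2, intervalIntegral.integral_neg]
        refine abs_of_nonpos ?_
        have : 0 ≤ ∫ r in (0 : ℝ)..1, -(s r).re :=
          intervalIntegral.integral_nonneg zero_le_one fun r _ => by have := h r; linarith
        rw [intervalIntegral.integral_neg] at this
        linarith
  obtain ⟨as, bs⟩ := key hs hsV hs1 hs2 him
  obtain ⟨at', bt⟩ := key ht htV ht1 ht2 him'
  have habs : |(∫ r in (0 : ℝ)..1, s r).re| = |(∫ r in (0 : ℝ)..1, t r).re| := by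
    rcases heq with h | h
    · rw [h]
    · rw [h, neg_re, abs_neg]
  rw [bs, bt] at habs
  have hVc : ContinuousOn V (Icc 0 1) := by
    have : ∀ r, V r = 4 * (s r ^ 2).re + a := by
      intro r
      rw [hsV, Complex.ofReal_re]; ring
    have h2 : V = fun r => 4 * (s r ^ 2).re + a := funext this
    rw [h2]
    exact ((continuous_const.mul (Complex.continuous_re.comp (hs.pow 2))).add
      continuous_const).continuousOn
  have strict : ∀ {c d : ℝ}, c < d → (∀ r ∈ Icc (0 : ℝ) 1, d ≤ V r) →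
      (∫ r in (0 : ℝ)..1, Real.sqrt ((V r - d) / 4)) <
        ∫ r in (0 : ℝ)..1, Real.sqrt ((V r - c) / 4) := by
    intro c d hcd hd
    have hc1 : ∀ e : ℝ, ContinuousOn (fun r => Real.sqrt ((V r - e) / 4)) (Icc 0 1) := fun e =>
      ((hVc.sub continuousOn_const).div_const 4).sqrt
    refine intervalIntegral.integral_lt_integral_of_continuousOn_of_le_of_exists_lt zero_lt_one
      (hc1 d) (hc1 c) (fun r hr => ?_) ⟨0, ⟨le_rfl, zero_le_one⟩, ?_⟩
    · exact Real.sqrt_le_sqrt (by linarith)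
    · refine Real.sqrt_lt_sqrt ?_ (by linarith)
      have := hd 0 ⟨le_rfl, zero_le_one⟩
      linarith
  rcases lt_trichotomy a b with h | h | h
  · have := strict h at'
    linarith
  · exact h
  · have := strict h as
    linarith

end Pool.W4b1b5d.H13
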