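import Pool.Agent.W_4b1b5d_h3.IBP
import Pool.Agent.W_4b1b5d_h34.Wave

set_option autoImplicit false

open Set Filter MeasureTheory Topology

namespace Pool.W4b1b5d.H13

open Pool.W4b1b5d.H3

/-- `ψ(x + k) - ψ(x)` does not depend on `x`. -/
theorem incr_const {a : V2 → V2 →L[ℝ] ℂ} (hp : Per a) {ψ : V2 → ℂ}
    (hψ : ∀ x, HasFDerivAt ψ (a x) x) (k : Fin 2 → ℤ) (x y : V2) :
    ψ (x + fun i => (k i : ℝ)) - ψ x = ψ (y + fun i => (k i : ℝ)) - ψ y := by
  have hd : ∀ z, HasFDerivAt (fun z => ψ (z + fun i => (k i : ℝ)) - ψ z) (0 : V2 →L[ℝ] ℂ) z := by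
    intro z
    have h1 : HasFDerivAt (fun z => ψ (z + fun i => (k i : ℝ))) (a (z + fun i => (k i : ℝ))) z :=
      (hasFDerivAt_comp_add_right (fun i => (k i : ℝ))).2 (hψ (z + fun i => (k i : ℝ)))
    rw [hp z k] at h1
    have h2 := h1.sub (hψ z)
    rw [sub_self] at h2
    exact h2
  exact is_const_of_fderiv_eq_zero (𝕜 := ℝ) (f := fun z => ψ (z + fun i => (k i : ℝ)) - ψ z)
    (fun z => (hd z).differentiableAt) (fun z => (hd z).fderiv) x y

/-- The linear part of a primitive. -/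
noncomputable def PiL (ψ : V2 → ℂ) : V2 →L[ℝ] ℂ :=
  (ContinuousLinearMap.proj (R := ℝ) (φ := fun _ : Fin 2 => ℝ) 0).smulRight
    (ψ (Pi.single 0 1) - ψ 0) +
  (ContinuousLinearMap.proj (R := ℝ) (φ := fun _ : Fin 2 => ℝ) 1).smulRight
    (ψ (Pi.single 1 1) - ψ 0)

theorem PiL_apply (ψ : V2 → ℂ) (v : V2) :
    PiL ψ v = v 0 • (ψ (Pi.single 0 1) - ψ 0) + v 1 • (ψ (Pi.single 1 1) - ψ 0) := by
  simp [PiL]

theorem PiL_int {a : V2 → V2 →L[ℝ] ℂ} (hp : Per a) {ψ : V2 → ℂ}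
    (hψ : ∀ x, HasFDerivAt ψ (a x) x) (k : Fin 2 → ℤ) (x : V2) :
    ψ (x + fun i => (k i : ℝ)) - ψ x = PiL ψ (fun i => (k i : ℝ)) := by
  have hadd : ∀ k l : Fin 2 → ℤ, ψ (0 + fun i => ((k + l) i : ℝ)) - ψ 0 =
      (ψ (0 + fun i => (k i : ℝ)) - ψ 0) + (ψ (0 + fun i => (l i : ℝ)) - ψ 0) := by
    intro k l
    have h1 := incr_const hp hψ k 0 (0 + fun i => (l i : ℝ))
    have e : (0 + fun i => ((k + l) i : ℝ) : V2) = (0 + fun i => (l i : ℝ)) + fun i => (k i : ℝ) := by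
      ext i; simp [add_comm]
    rw [e, h1]; ring
  -- the additive homomorphism
  let φ : (Fin 2 → ℤ) →+ ℂ :=
    { toFun := fun k => ψ (0 + fun i => (k i : ℝ)) - ψ 0
      map_zero' := by
        have e : (0 + fun i => (((0 : Fin 2 → ℤ) i : ℤ) : ℝ) : V2) = 0 := by ext i; simp
        rw [e, sub_self]
      map_add' := hadd }
  have h0 : ψ (x + fun i => (k i : ℝ)) - ψ x = φ k := incr_const hp hψ k x 0
  have hk : k = k 0 • (Pi.single 0 1 : Fin 2 → ℤ) + k 1 • (Pi.single 1 1 : Fin 2 → ℤ) := by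
    ext i; fin_cases i <;> simp
  have e0 : φ (Pi.single 0 1) = ψ (Pi.single 0 1) - ψ 0 := by
    show ψ (0 + fun i => ((Pi.single 0 1 : Fin 2 → ℤ) i : ℝ)) - ψ 0 = _
    congr 2
    ext i; fin_cases i <;> simp
  have e1 : φ (Pi.single 1 1) = ψ (Pi.single 1 1) - ψ 0 := by
    show ψ (0 + fun i => ((Pi.single 1 1 : Fin 2 → ℤ) i : ℝ)) - ψ 0 = _
    congr 2
    ext i; fin_cases i <;> simp
  rw [h0]
  conv_lhs => rw [hk]
  rw [map_add, map_zsmul, map_zsmul, e0, e1, PiL_apply]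
  simp [zsmul_eq_mul]

theorem PiL_per {a : V2 → V2 →L[ℝ] ℂ} (hp : Per a) {ψ : V2 → ℂ}
    (hψ : ∀ x, HasFDerivAt ψ (a x) x) : Per fun x => ψ x - PiL ψ x := by
  intro x k
  have h := PiL_int hp hψ k x
  show ψ _ - PiL ψ (x + fun i => (k i : ℝ)) = ψ x - PiL ψ x
  rw [map_add]
  linear_combination h

/-- **mean = period**: the mean of the closed form over the unit cell is the linear part of its
primitive. -/
theorem mean_eq {a : V2 → V2 →L[ℝ] ℂ} (hc : Continuous a) (hp : Per a) {ψ : V2 → ℂ}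
    (hψ : ∀ x, HasFDerivAt ψ (a x) x) (v : V2) :
    ∫ x in Icc (0 : V2) 1, a x v = PiL ψ v := by
  have hd : ∀ x, HasFDerivAt (fun x => ψ x - PiL ψ x) (a x - PiL ψ) x := fun x =>
    (hψ x).sub (PiL ψ).hasFDerivAt
  have hfd : fderiv ℝ (fun x => ψ x - PiL ψ x) = fun x => a x - PiL ψ := by
    funext x; exact (hd x).fderiv
  have h1 : ContDiff ℝ 1 fun x => ψ x - PiL ψ x := by
    rw [contDiff_one_iff_fderiv, hfd]
    exact ⟨fun x => (hd x).differentiableAt, hc.sub continuous_const⟩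
  have h2 := IBP_x _ h1 (PiL_per hp hψ) 0 v
  rw [hfd] at h2
  have e : (Icc (0 : V2) fun i => (0 : V2) i + 1) = Icc (0 : V2) 1 := by
    congr 1; ext i; simp
  rw [e] at h2
  have hvol : (volume : Measure V2).real (Icc (0 : V2) 1) = 1 := by
    rw [Measure.real, Real.volume_Icc_pi]
    simp
  have hi : IntegrableOn (fun x => a x v) (Icc (0 : V2) 1) :=
    (hc.clm_apply continuous_const).continuousOn.integrableOn_compact isCompact_Icc
  have hi2 : IntegrableOn (fun _ : V2 => PiL ψ v) (Icc (0 : V2) 1) :=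
    integrableOn_const isCompact_Icc.measure_lt_top.ne
  have h3 : ∫ x in Icc (0 : V2) 1, (a x - PiL ψ) v =
      (∫ x in Icc (0 : V2) 1, a x v) - ∫ x in Icc (0 : V2) 1, PiL ψ v := by
    rw [← integral_sub hi hi2]
    rfl
  rw [h3, setIntegral_const, hvol, one_smul] at h2
  linear_combination h2

/-- the period along an integer vector is the mean -/
theorem period_eq {a : V2 → V2 →L[ℝ] ℂ} (hc : Continuous a) (hp : Per a) {ψ : V2 → ℂ}
    (hψ : ∀ x, HasFDerivAt ψ (a x) x) (k : Fin 2 → ℤ) (x : V2) :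
    ψ (x + fun i => (k i : ℝ)) - ψ x = ∫ x in Icc (0 : V2) 1, a x (fun i => (k i : ℝ)) := by
  rw [mean_eq hc hp hψ, PiL_int hp hψ]

/-- the mean is the integral over a closed line -/
theorem loop_eq {a : V2 → V2 →L[ℝ] ℂ} (hc : Continuous a) (hp : Per a) {ψ : V2 → ℂ}
    (hψ : ∀ x, HasFDerivAt ψ (a x) x) (k : Fin 2 → ℤ) (x : V2) :
    ∫ r in (0 : ℝ)..1, a (x + r • (fun i => (k i : ℝ) : V2)) (fun i => (k i : ℝ)) =
      ∫ x in Icc (0 : V2) 1, a x (fun i => (k i : ℝ)) := by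
  set γ : V2 := fun i => (k i : ℝ) with hγ
  rw [← period_eq hc hp hψ k x]
  have hline : ∀ r : ℝ, HasDerivAt (fun r : ℝ => ψ (x + r • γ)) (a (x + r • γ) γ) r := by
    intro r
    have h1 : HasDerivAt (fun s : ℝ => x + s • γ) γ r := by
      have := ((hasDerivAt_id r).smul_const γ).const_add x
      simpa using this
    exact (hψ (x + r • γ)).comp_hasDerivAt r h1
  rw [intervalIntegral.integral_eq_sub_of_hasDerivAt (f := fun r : ℝ => ψ (x + r • γ))
    (fun r _ => hline r)]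
  · simp [hγ]
  · have h2 : Continuous fun r : ℝ => a (x + r • γ) γ :=
      (hc.comp (by fun_prop : Continuous fun r : ℝ => x + r • γ)).clm_apply continuous_const
    exact h2.intervalIntegrable _ _

/-- a continuous periodic function on the plane is bounded -/
theorem per_bddC {f : V2 → ℂ} (hf : Continuous f) (hper : Per f) : ∃ B : ℝ, ∀ x, ‖f x‖ ≤ B := by
  obtain ⟨B, hB⟩ := Pool.W4b1b5d.H34.per_bdd (f := fun x => ‖f x‖) hf.norm
    (fun x k => by show ‖f _‖ = ‖f x‖; rw [hper x k])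
  exact ⟨B, fun x => by simpa using hB x⟩

/-- If a closed form vanishes on a connected open set `S`, its mean is bounded on `S`. -/
theorem mean_bdd {a : V2 → V2 →L[ℝ] ℂ} (hc : Continuous a) (hp : Per a) {ψ : V2 → ℂ}
    (hψ : ∀ x, HasFDerivAt ψ (a x) x) {S : Set V2} (hS : IsOpen S) (hS' : IsPreconnected S)
    (h0 : ∀ x ∈ S, a x = 0) : ∃ C, ∀ x ∈ S, ‖∫ y in Icc (0 : V2) 1, a y x‖ ≤ C := by
  rcases S.eq_empty_or_nonempty with rfl | ⟨x0, hx0⟩
  · exact ⟨0, fun x hx => absurd hx (notMem_empty x)⟩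
  have hψc : Continuous ψ := continuous_iff_continuousAt.2 fun x => (hψ x).continuousAt
  obtain ⟨B, hB⟩ := per_bddC (hψc.sub (PiL ψ).continuous) (PiL_per hp hψ)
  have hconst : ∀ x ∈ S, ψ x = ψ x0 := by
    intro x hx
    exact hS.is_const_of_fderiv_eq_zero (𝕜 := ℝ) hS'
      (fun y hy => (hψ y).differentiableAt.differentiableWithinAt)
      (fun y hy => by rw [(hψ y).fderiv]; exact h0 y hy) hx hx0
  refine ⟨‖ψ x0‖ + B, fun x hx => ?_⟩
  rw [mean_eq hc hp hψ]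
  have h1 : ‖ψ x - PiL ψ x‖ ≤ B := hB x
  have h2 : PiL ψ x = ψ x - (ψ x - PiL ψ x) := by ring
  rw [h2]
  refine (norm_sub_le _ _).trans ?_
  rw [hconst x hx] at h1 ⊢
  linarith

end Pool.W4b1b5d.H13
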