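import Pool.Agent.W_4b1b5d_h13.Exit

set_option autoImplicit false

open Set Filter MeasureTheory Topology

namespace Pool.W4b1b5d.H13

theorem core_step {S : Set R2} {u V : R2 → ℝ} (d : R2 →ₗ[ℝ] ℝ) {w : R2} (hw : 0 < d w)
    (hV : Inc S u V w) {B B' : ℝ} (hB0 : 0 ≤ B) (hB' : ∀ x, |D w u x| ≤ B')
    (hest : ∀ x ∈ S, ∃ y, d x ≤ d y ∧ |D w u x| ≤ B * |V y - V x|)
    {σ : ℝ} (hσ : ∀ x y, σ < d x → σ < d y → V x = V y) :
    ∀ x y, σ - d w / (4 * (B + 1)) < d x → σ - d w / (4 * (B + 1)) < d y → V x = V y := by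
  set δ := d w / (4 * (B + 1)) with hδ
  set l := 1 / (4 * (B + 1)) with hl
  have hl0 : 0 < l := by positivity
  have hδ0 : 0 < δ := by positivity
  have hlw : l * d w = δ := by rw [hl, hδ]; ring
  have hB'0 : 0 ≤ B' := (abs_nonneg _).trans (hB' 0)
  have hup : ∀ x, d (x + l • w) = d x + δ := fun x => by simp [hlw]
  have hpt : ∀ x (s : ℝ), d (x + s • w) = d x + s * d w := fun x s => by simp
  have key : ∀ M, 0 ≤ M → (∀ x ∈ S, σ - δ < d x → |D w u x| ≤ M) →
      ∀ x y, σ - δ < d x → σ - δ < d y → |V x - V y| ≤ 2 * (M * l) := by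
    intro M hM0 hM x y hx hy
    have h1 : ∀ z, σ - δ < d z → |V (z + l • w) - V z| ≤ M * l := by
      intro z hz
      rw [hV z l]
      have := intervalIntegral.norm_integral_le_of_norm_le_const
        (f := fun s : ℝ => S.indicator (D w u) (z + s • w)) (a := 0) (b := l) (C := M) ?_
      · simpa [abs_of_pos hl0] using this
      · intro s hs
        rw [uIoc_of_le hl0.le] at hs
        rw [Real.norm_eq_abs]
        by_cases hm : z + s • w ∈ S
        · rw [indicator_of_mem hm]
          refine hM _ hm ?_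
          rw [hpt]
          have : 0 ≤ s * d w := mul_nonneg hs.1.le hw.le
          linarith
        · rw [indicator_of_notMem hm]; simpa using hM0
    have h2 : V (x + l • w) = V (y + l • w) :=
      hσ _ _ (by rw [hup]; linarith) (by rw [hup]; linarith)
    have h3 := abs_le.1 (h1 x hx)
    have h4 := abs_le.1 (h1 y hy)
    rw [h2] at h3
    rw [abs_le]
    constructor <;> linarith [h3.1, h3.2, h4.1, h4.2]
  have hiter : ∀ n : ℕ, ∀ x y, σ - δ < d x → σ - δ < d y → |V x - V y| ≤ 2 * (B' * l) * (1 / 2) ^ n := by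
    intro n
    induction n with
    | zero =>
      intro x y hx hy
      have := key B' hB'0 (fun x _ _ => hB' x) x y hx hy
      simpa using this
    | succ n ih =>
      intro x y hx hy
      set M := 2 * (B' * l) * (1 / 2) ^ n with hM
      have hM0 : 0 ≤ M := by positivity
      have h1 := key (B * M) (by positivity) (fun z hz hzd => by
        obtain ⟨y', hy1, hy2⟩ := hest z hz
        refine hy2.trans ?_
        gcongr
        exact ih _ _ (by linarith) hzd) x y hx hy
      refine h1.trans ?_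
      have h2 : 2 * (B * M * l) = (4 * (B * l)) * (M / 2) := by ring
      have h3 : 4 * (B * l) ≤ 1 := by
        rw [hl]
        rw [show 4 * (B * (1 / (4 * (B + 1)))) = B / (B + 1) by field_simp]
        rw [div_le_one (by linarith)]; linarith
      have h4 : 2 * (B' * l) * (1 / 2) ^ (n + 1) = M / 2 := by rw [hM]; ring
      rw [h2, h4]
      have : 0 ≤ M / 2 := by positivity
      nlinarith
  intro x y hx hy
  have hlim : Tendsto (fun n : ℕ => 2 * (B' * l) * (1 / 2 : ℝ) ^ n) atTop (𝓝 (2 * (B' * l) * 0)) :=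
    (tendsto_pow_atTop_nhds_zero_of_lt_one (by norm_num) (by norm_num)).const_mul _
  have h0 : |V x - V y| ≤ 0 := by
    have := ge_of_tendsto' hlim (fun n => hiter n x y hx hy)
    simpa using this
  have := abs_nonpos_iff.1 h0
  linarith

theorem core {S : Set R2} {u V : R2 → ℝ} (d : R2 →ₗ[ℝ] ℝ) {w : R2} (hw : 0 < d w)
    (hV : Inc S u V w) {B B' : ℝ} (hB0 : 0 ≤ B) (hB' : ∀ x, |D w u x| ≤ B')
    (hest : ∀ x ∈ S, ∃ y, d x ≤ d y ∧ |D w u x| ≤ B * |V y - V x|)
    {C : ℝ} (h0 : ∀ x y, C < d x → C < d y → V x = V y) (x y : R2) : V x = V y := by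
  have h : ∀ n : ℕ, ∀ x y, C - n * (d w / (4 * (B + 1))) < d x →
      C - n * (d w / (4 * (B + 1))) < d y → V x = V y := by
    intro n
    induction n with
    | zero => simpa using h0
    | succ n ih =>
      have := core_step d hw hV hB0 hB' hest ih
      intro x y hx hy
      refine this x y ?_ ?_
      · push_cast at hx; linarith
      · push_cast at hy; linarith
  have hδ0 : 0 < d w / (4 * (B + 1)) := by positivity
  obtain ⟨n, hn⟩ := exists_nat_gt ((C - min (d x) (d y)) / (d w / (4 * (B + 1))))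
  rw [div_lt_iff₀ hδ0] at hn
  have h1 := min_le_left (d x) (d y)
  have h2 := min_le_right (d x) (d y)
  exact h n x y (by linarith) (by linarith)

theorem seg_const {S : Set R2} {u V : R2 → ℝ} (d : R2 →ₗ[ℝ] ℝ) {v : R2}
    (hV : Inc S u V v) {C : ℝ} (hC : ∀ x ∈ S, d x ≤ C) {x : R2} {r : ℝ} (h1 : C < d x)
    (h2 : C < d (x + r • v)) : V (x + r • v) = V x := by
  have h := hV x r
  have e : ∫ s in (0 : ℝ)..r, S.indicator (D v u) (x + s • v) = ∫ s in (0 : ℝ)..r, (0 : ℝ) := by
    refine intervalIntegral.integral_congr fun s hs => ?_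
    have hn : x + s • v ∉ S := by
      intro hm
      have h3 := hC _ hm
      have e1 : d (x + s • v) = d x + s * d v := by simp
      have e2 : d (x + r • v) = d x + r * d v := by simp
      rw [e1] at h3
      rw [e2] at h2
      rcases le_total 0 r with hr | hr
      · rw [uIcc_of_le hr] at hs
        rcases le_total 0 (d v) with hd | hd
        · have := mul_nonneg hs.1 hd; linarith
        · have := mul_le_mul_of_nonpos_right hs.2 hd; linarith
      · rw [uIcc_of_ge hr] at hs
        rcases le_total 0 (d v) with hd | hd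
        · have := mul_le_mul_of_nonneg_right hs.1 hd; linarith
        · have := mul_nonneg_of_nonpos_of_nonpos hs.2 hd; linarith
    exact indicator_of_notMem hn _
  rw [e] at h
  simp at h
  linarith

theorem far_const {S : Set R2} {u V : R2 → ℝ} (d : R2 →ₗ[ℝ] ℝ)
    (hV1 : Inc S u V (1, 0)) (hV2 : Inc S u V (0, 1)) {C : ℝ} (hC : ∀ x ∈ S, d x ≤ C) (x y : R2)
    (hx : C < d x) (hy : C < d y) : V x = V y := by
  have hsum : d (y.1, x.2) + d (x.1, y.2) = d x + d y := by
    rw [← map_add, ← map_add]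
    congr 1
    ext <;> simp [add_comm]
  have e1 : (y.1, x.2) = x + (y.1 - x.1) • ((1, 0) : R2) := by ext <;> simp
  have e2 : y = (y.1, x.2) + (y.2 - x.2) • ((0, 1) : R2) := by ext <;> simp
  have e3 : (x.1, y.2) = x + (y.2 - x.2) • ((0, 1) : R2) := by ext <;> simp
  have e4 : y = (x.1, y.2) + (y.1 - x.1) • ((1, 0) : R2) := by ext <;> simp
  rcases lt_or_ge C (d (y.1, x.2)) with h | h
  · have a1 : V (y.1, x.2) = V x := by
      rw [e1]; exact seg_const d hV1 hC hx (by rw [← e1]; exact h)
    have a2 : V y = V (y.1, x.2) := by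
      conv_lhs => rw [e2]
      exact seg_const d hV2 hC h (by rw [← e2]; exact hy)
    rw [a2, a1]
  · have h' : C < d (x.1, y.2) := by linarith
    have a1 : V (x.1, y.2) = V x := by
      rw [e3]; exact seg_const d hV2 hC hx (by rw [← e3]; exact h')
    have a2 : V y = V (x.1, y.2) := by
      conv_lhs => rw [e4]
      exact seg_const d hV1 hC h' (by rw [← e4]; exact hy)
    rw [a2, a1]

end Pool.W4b1b5d.H13
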