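import Pool.Agent.W_4b1b5d_h13.IrrII
import Pool.Agent.W_4b1b5d_h13.Mean
import Pool.Agent.W_4b1b5d_h13.Loop

set_option autoImplicit false

open Set Filter MeasureTheory Topology

namespace Pool.W4b1b5d.H13

open Pool.W4b1b5d.H3 Pool.Agent.U4b

theorem ne_of_span {e f : V2} (hspan : ∀ v : V2, ∃ s t : ℝ, v = s • e + t • f) : e ≠ 0 := by
  rintro rfl
  obtain ⟨s, t, h⟩ := hspan ![1, 0]
  obtain ⟨s', t', h'⟩ := hspan ![0, 1]
  have a0 := congrFun h 0
  have a1 := congrFun h 1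
  have b0 := congrFun h' 0
  have b1 := congrFun h' 1
  simp at a0 a1 b0 b1
  rcases a1 with ht | hf
  · rw [ht] at a0; simp at a0
  · rw [hf] at b1; simp at b1

theorem span_symm {e f : V2} (hspan : ∀ v : V2, ∃ s t : ℝ, v = s • e + t • f) :
    ∀ v : V2, ∃ s t : ℝ, v = s • f + t • e := fun v => by
  obtain ⟨s, t, h⟩ := hspan v
  exact ⟨t, s, by rw [h, add_comm]⟩

/-- **The dichotomy.** -/
theorem dich {S : Set V2} (hS : IsOpen S) {G : Matrix (Fin 2) (Fin 2) ℝ} (hG : G.PosDef)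
    {mu U : V2 → ℝ} (hmu : ContDiff ℝ (⊤ : ℕ∞) mu) (hpos : ∀ x, 0 < mu x) (hpmu : Per mu)
    (hU : ContDiff ℝ (⊤ : ℕ∞) U) (hpU : Per U)
    (hfr : ∀ x ∈ frontier S, fderiv ℝ U x = 0)
    (e f : V2) (hspan : ∀ v : V2, ∃ s t : ℝ, v = s • e + t • f)
    (h1 : ∀ x ∈ S, Lines_D f (Lines_D e fun y => (mu y)⁻¹) x = 0)
    (h2 : ∀ x ∈ S, Lines_D f (Lines_D e fun y => (mu y)⁻¹ * U y) x = 0)
    (hne : ∃ x ∈ S, fderiv ℝ U x ≠ 0) :
    PartII (Ham (fun x => mu x • G) U) ∨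
    (∀ d : V2 →ₗ[ℝ] ℝ, (∃ C, ∀ x ∈ S, |d x| ≤ C) → d = 0) ∨
    ∃ (k : Fin 2 → ℤ) (c : ℝ), k ≠ 0 ∧ c ≠ 0 ∧
      (e = c • (fun i => (k i : ℝ) : V2) ∨ f = c • (fun i => (k i : ℝ) : V2)) ∧
      (∃ x ∈ S, ∀ r : ℝ, x + r • (fun i => (k i : ℝ) : V2) ∈ S) ∧
      ∀ d : V2 →ₗ[ℝ] ℝ, (∃ C, ∀ x ∈ S, |d x| ≤ C) → d (fun i => (k i : ℝ)) = 0 := by
  have hinv : ContDiff ℝ (⊤ : ℕ∞) fun y => (mu y)⁻¹ := hmu.inv fun x => (hpos x).ne'
  have hpi : Per fun y => (mu y)⁻¹ := fun x k => by simp only [hpmu x k]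
  have he := ne_of_span hspan
  have hf := ne_of_span (span_symm hspan)
  rcases gron_dim hS hU hinv hpU hpi (fun x => inv_pos.2 (hpos x)) hfr e f hspan h1 h2 hne with
    h | ⟨v, hv, ⟨x0, hx0, hl⟩, hd⟩
  · exact Or.inr (Or.inl h)
  · by_cases hr : Rat v
    · right; right
      obtain ⟨k, c, hk, hvk⟩ := hr
      have hc : c ≠ 0 := by
        rintro rfl
        rw [zero_smul] at hvk
        rcases hv with h | h
        · exact he (h ▸ hvk)
        · exact hf (h ▸ hvk)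
      refine ⟨k, c, hk, hc, ?_, ⟨x0, hx0, fun r => ?_⟩, fun d hd' => ?_⟩
      · rcases hv with h | h
        · left; rw [← h]; exact hvk
        · right; rw [← h]; exact hvk
      · have := hl (r / c)
        rw [hvk, smul_smul, div_mul_cancel₀ _ hc] at this
        exact this
      · have h3 := hd d hd'
        rw [hvk, map_smul, smul_eq_mul] at h3
        exact (mul_eq_zero.1 h3).resolve_left hc
    · left
      rcases hv with h | h
      · rw [h] at hl hr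
        exact partII_of_irr hG hmu hpos hpmu hU hpU (v := e) (w := f) hf hl
          (fun x hx => by rw [Lines_D_comm e f hinv]; exact h1 x hx)
          (fun x hx => by rw [Lines_D_comm e f (hinv.mul hU)]; exact h2 x hx) hr
      · rw [h] at hl hr
        exact partII_of_irr hG hmu hpos hpmu hU hpU (v := f) (w := e) he hl h1 h2 hr

end Pool.W4b1b5d.H13
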