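import Pool.Agent.W_4b1b5d_h13.Gronwall

set_option autoImplicit false

open Set Filter MeasureTheory Topology

namespace Pool.W4b1b5d.H13

open Pool.W4b1b5d.H3

/-- a linear form bounded on a line vanishes on its direction -/
theorem bdd_line {S : Set V2} {x v : V2} (hl : ∀ r : ℝ, x + r • v ∈ S) (d : V2 →ₗ[ℝ] ℝ)
    {C : ℝ} (hC : ∀ x ∈ S, |d x| ≤ C) : d v = 0 := by
  by_contra h
  have h1 : ∀ r : ℝ, |d x + r * d v| ≤ C := fun r => by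
    have := hC _ (hl r)
    simpa using this
  have h2 := h1 ((C + 1 + |d x|) / d v)
  rw [div_mul_cancel₀ _ h] at h2
  have h3 := (le_abs_self _).trans h2
  have := neg_abs_le (d x)
  linarith

/-- **Corollary of the Gronwall step.**  Either no nonzero linear form is bounded on `S`, or there
is a complete axis line in `S` and all linear forms bounded on `S` vanish on its direction. -/
theorem gron_dim {S : Set V2} (hS : IsOpen S) {u ρ : V2 → ℝ}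
    (hu : ContDiff ℝ (⊤ : ℕ∞) u) (hρ : ContDiff ℝ (⊤ : ℕ∞) ρ) (hpu : Per u) (hpρ : Per ρ)
    (hpos : ∀ x, 0 < ρ x) (hfr : ∀ x ∈ frontier S, fderiv ℝ u x = 0)
    (e f : V2) (hspan : ∀ v : V2, ∃ s t : ℝ, v = s • e + t • f)
    (h1 : ∀ x ∈ S, Lines_D f (Lines_D e ρ) x = 0)
    (h2 : ∀ x ∈ S, Lines_D f (Lines_D e fun y => ρ y * u y) x = 0)
    (hne : ∃ x ∈ S, fderiv ℝ u x ≠ 0) :
    (∀ d : V2 →ₗ[ℝ] ℝ, (∃ C, ∀ x ∈ S, |d x| ≤ C) → d = 0) ∨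
    ∃ v : V2, (v = e ∨ v = f) ∧ (∃ x ∈ S, ∀ r : ℝ, x + r • v ∈ S) ∧
      ∀ d : V2 →ₗ[ℝ] ℝ, (∃ C, ∀ x ∈ S, |d x| ≤ C) → d v = 0 := by
  by_cases hex : ∃ d : V2 →ₗ[ℝ] ℝ, (∃ C, ∀ x ∈ S, |d x| ≤ C) ∧ d ≠ 0
  · right
    obtain ⟨d, ⟨C, hC⟩, hd⟩ := hex
    obtain ⟨v, hv, -, x, hx, hl⟩ := gronwall hS hu hρ hpu hpρ hpos hfr e f hspan h1 h2 d hd hC hne
    exact ⟨v, hv, ⟨x, hx, hl⟩, fun d' ⟨C', hC'⟩ => bdd_line hl d' hC'⟩
  · left
    push Not at hex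
    exact fun d hd => hex d hd

end Pool.W4b1b5d.H13
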