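import Pool.Agent.W_4b1b5d_h13.Pot

set_option autoImplicit false

open Set Filter MeasureTheory Topology

namespace Pool.W4b1b5d.H13

theorem exit_pos {S : Set R2} (hS : IsOpen S) {x v : R2} (hx : x ∈ S) {r : ℝ} (hr : 0 ≤ r)
    (hxr : x + r • v ∉ S) :
    ∃ r1 : ℝ, 0 < r1 ∧ x + r1 • v ∈ frontier S ∧ ∀ s, 0 ≤ s → s < r1 → x + s • v ∈ S := by
  have hc : Continuous fun s : ℝ => x + s • v := by fun_prop
  set T : Set ℝ := {s | 0 ≤ s ∧ x + s • v ∉ S} with hT
  have hTc : IsClosed T := by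
    have : T = Ici 0 ∩ (fun s : ℝ => x + s • v) ⁻¹' Sᶜ := by ext s; simp [hT]
    rw [this]
    exact isClosed_Ici.inter (hS.isClosed_compl.preimage hc)
  have hTn : T.Nonempty := ⟨r, hr, hxr⟩
  have hTb : BddBelow T := ⟨0, fun s hs => hs.1⟩
  have h1 : sInf T ∈ T := hTc.csInf_mem hTn hTb
  have hlt : ∀ s, 0 ≤ s → s < sInf T → x + s • v ∈ S := by
    intro s hs0 hs
    by_contra hcon
    exact absurd (csInf_le hTb ⟨hs0, hcon⟩) (not_le.2 hs)
  have hpos : 0 < sInf T := by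
    rcases eq_or_lt_of_le h1.1 with h | h
    · exfalso
      apply h1.2
      rw [← h]; simpa using hx
    · exact h
  refine ⟨sInf T, hpos, ?_, hlt⟩
  rw [hS.frontier_eq]
  refine ⟨?_, h1.2⟩
  have hcl : sInf T ∈ closure (Ico 0 (sInf T)) := by
    rw [closure_Ico hpos.ne]; exact ⟨hpos.le, le_rfl⟩
  have := (map_mem_closure hc hcl (t := S)) (fun s hs => hlt s hs.1 hs.2)
  exact this

theorem hasDeriv_line {f : R2 → ℝ} (hf : Differentiable ℝ f) (x v : R2) (s : ℝ) :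
    HasDerivAt (fun s : ℝ => f (x + s • v)) (D v f (x + s • v)) s := by
  have h1 : HasDerivAt (fun s : ℝ => x + s • v) v s := by
    have := ((hasDerivAt_id s).smul_const v).const_add x
    simpa using this
  exact (hf (x + s • v)).hasFDerivAt.comp_hasDerivAt s h1

theorem const_line {f : R2 → ℝ} (hf : Differentiable ℝ f) {x v : R2} {r : ℝ} (hr : 0 ≤ r)
    (h0 : ∀ s, 0 ≤ s → s < r → D v f (x + s • v) = 0) : f (x + r • v) = f x := by
  have := constant_of_has_deriv_right_zero (f := fun s : ℝ => f (x + s • v)) (a := 0) (b := r)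
    (fun s _ => (hasDeriv_line hf x v s).continuousAt.continuousWithinAt)
    (fun s hs => by
      have := hasDeriv_line hf x v s
      rw [h0 s hs.1 hs.2] at this
      exact this.hasDerivWithinAt) r ⟨hr, le_rfl⟩
  simpa using this

theorem exit_data {S : Set R2} (hS : IsOpen S) {u V g1 g2 : R2 → ℝ}
    (hu : ContDiff ℝ (⊤ : ℕ∞) u) (hfr : ∀ x ∈ frontier S, fderiv ℝ u x = 0)
    {v : R2} (hV : Inc S u V v) (hg1 : Differentiable ℝ g1) (hg2 : Differentiable ℝ g2)
    (h1 : ∀ x ∈ S, D v g1 x = 0) (h2 : ∀ x ∈ S, D v g2 x = 0)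
    {x : R2} (hx : x ∈ S) {r : ℝ} (hr : 0 ≤ r) (hxr : x + r • v ∉ S) :
    ∃ r1 : ℝ, 0 ≤ r1 ∧ x + r1 • v ∈ frontier S ∧
      V (x + r1 • v) - V x = u (x + r1 • v) - u x ∧ g1 (x + r1 • v) = g1 x ∧
      g2 (x + r1 • v) = g2 x := by
  obtain ⟨r1, hr1, hf, hin⟩ := exit_pos hS hx hr hxr
  refine ⟨r1, hr1.le, hf, ?_, const_line hg1 hr1.le fun s a b => h1 _ (hin s a b),
    const_line hg2 hr1.le fun s a b => h2 _ (hin s a b)⟩
  rw [hV x r1]
  have e1 : ∫ s in (0 : ℝ)..r1, S.indicator (D v u) (x + s • v) =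
      ∫ s in (0 : ℝ)..r1, D v u (x + s • v) := by
    refine intervalIntegral.integral_congr fun s hs => ?_
    rw [uIcc_of_le hr1.le] at hs
    rcases eq_or_lt_of_le hs.2 with h | h
    · have : D v u (x + s • v) = 0 := by
        unfold D; rw [h, hfr _ hf]; rfl
      rw [this]
      by_cases hm : x + s • v ∈ S
      · rw [indicator_of_mem hm, this]
      · rw [indicator_of_notMem hm]
    · rw [indicator_of_mem (hin s hs.1 h)]
  rw [e1, intervalIntegral.integral_eq_sub_of_hasDerivAt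
    (f := fun s : ℝ => u (x + s • v)) (fun s _ => hasDeriv_line (smooth_diff hu) x v s)]
  · simp
  · have : Continuous fun s : ℝ => D v u (x + s • v) :=
      (D_smooth v hu).continuous.comp (by fun_prop)
    exact this.intervalIntegrable _ _

theorem D_mul {f g : R2 → ℝ} (hf : Differentiable ℝ f) (hg : Differentiable ℝ g) (v x : R2) :
    D v (fun y => f y * g y) x = D v f x * g x + f x * D v g x := by
  unfold D
  have h := ((hf x).hasFDerivAt.mul (hg x).hasFDerivAt).fderiv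
  have h2 : (fun y => f y * g y) = f * g := rfl
  rw [h2, h]
  simp only [_root_.add_apply, _root_.smul_apply, smul_eq_mul]
  ring

/-- The key estimate: `D_w u` is controlled by the difference of `V` at the exit point in the
direction `v`. -/
theorem exit_est {S : Set R2} (hS : IsOpen S) {u V ρ : R2 → ℝ}
    (hu : ContDiff ℝ (⊤ : ℕ∞) u) (hρ : ContDiff ℝ (⊤ : ℕ∞) ρ) (hpos : ∀ x, 0 < ρ x)
    (hfr : ∀ x ∈ frontier S, fderiv ℝ u x = 0)
    {v w : R2} (hV : Inc S u V v)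
    (h1 : ∀ x ∈ S, D v (D w ρ) x = 0) (h2 : ∀ x ∈ S, D v (D w fun y => ρ y * u y) x = 0)
    {B : ℝ} (hB : ∀ x, |D w ρ x| ≤ B * ρ x)
    {x : R2} (hx : x ∈ S) {r : ℝ} (hr : 0 ≤ r) (hxr : x + r • v ∉ S) :
    ∃ r1 : ℝ, 0 ≤ r1 ∧ |D w u x| ≤ B * |V (x + r1 • v) - V x| := by
  have hud := smooth_diff hu
  have hρd := smooth_diff hρ
  obtain ⟨r1, hr1, hf, hVu, e1, e2⟩ := exit_data hS hu hfr hV
    (smooth_diff (D_smooth w hρ)) (smooth_diff (D_smooth w (hρ.mul hu))) h1 h2 hx hr hxr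
  refine ⟨r1, hr1, ?_⟩
  rw [D_mul hρd hud, D_mul hρd hud] at e2
  have e3 : D w u (x + r1 • v) = 0 := by unfold D; rw [hfr _ hf]; rfl
  rw [e3, e1] at e2
  have e4 : ρ x * D w u x = D w ρ x * (u (x + r1 • v) - u x) := by linarith
  rw [hVu]
  have h3 : ρ x * |D w u x| ≤ ρ x * (B * |u (x + r1 • v) - u x|) := by
    calc ρ x * |D w u x| = |ρ x * D w u x| := by rw [abs_mul, abs_of_pos (hpos x)]
      _ = |D w ρ x| * |u (x + r1 • v) - u x| := by rw [e4, abs_mul]
      _ ≤ (B * ρ x) * |u (x + r1 • v) - u x| := by gcongr; exact hB x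
      _ = ρ x * (B * |u (x + r1 • v) - u x|) := by ring
  exact le_of_mul_le_mul_left h3 (hpos x)

end Pool.W4b1b5d.H13
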