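import Pool.Agent.W_4b1b5d_h13.Core

set_option autoImplicit false

open Set Filter MeasureTheory Topology

namespace Pool.W4b1b5d.H13

theorem D_comm {u : R2 → ℝ} (hu : ContDiff ℝ (⊤ : ℕ∞) u) (v w x : R2) :
    D v (D w u) x = D w (D v u) x := by
  have hf : Differentiable ℝ (fderiv ℝ u) :=
    (hu.fderiv_right (m := ((⊤ : ℕ∞) : WithTop ℕ∞)) (by simp)).differentiable (by simp)
  have h1 : ∀ a b : R2, D a (D b u) x = fderiv ℝ (fderiv ℝ u) x a b := by
    intro a b
    unfold D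
    have := ((hf x).hasFDerivAt.clm_apply (hasFDerivAt_const b x))
    rw [this.fderiv]; simp
  have hs : IsSymmSndFDerivAt ℝ u x :=
    (hu.contDiffAt).isSymmSndFDerivAt (by
      rw [minSmoothness_of_isRCLikeNormedField]
      have : ((2 : ℕ∞) : WithTop ℕ∞) ≤ ((⊤ : ℕ∞) : WithTop ℕ∞) := by
        exact WithTop.coe_le_coe.mpr le_top
      exact this)
  rw [h1, h1]
  exact hs _ _

/-- For `x ∈ S`, the derivative in the direction `w` is controlled by `V` at a point with larger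
`d`; `v` is the other axis. -/
theorem est_dir {S : Set R2} (hS : IsOpen S) {u V ρ : R2 → ℝ}
    (hu : ContDiff ℝ (⊤ : ℕ∞) u) (hρ : ContDiff ℝ (⊤ : ℕ∞) ρ) (hpos : ∀ x, 0 < ρ x)
    (hfr : ∀ x ∈ frontier S, fderiv ℝ u x = 0)
    {v w : R2} (hV : Inc S u V v)
    (h1 : ∀ x ∈ S, D v (D w ρ) x = 0) (h2 : ∀ x ∈ S, D v (D w fun y => ρ y * u y) x = 0)
    {B : ℝ} (hB : ∀ x, |D w ρ x| ≤ B * ρ x) (d : R2 →ₗ[ℝ] ℝ) {C : ℝ} (hC : ∀ x ∈ S, |d x| ≤ C)
    (hleave : d v = 0 → ∀ x ∈ S, ∃ r : ℝ, x + r • v ∉ S) :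
    ∀ x ∈ S, ∃ y, d x ≤ d y ∧ |D w u x| ≤ B * |V y - V x| := by
  intro x hx
  have hex : ∃ r : ℝ, 0 ≤ r * d v ∧ x + r • v ∉ S := by
    by_cases h0 : d v = 0
    · obtain ⟨r, hr⟩ := hleave h0 x hx
      exact ⟨r, by rw [h0, mul_zero], hr⟩
    · refine ⟨(C + 1 + |d x|) / d v, ?_, fun hm => ?_⟩
      · rw [div_mul_cancel₀ _ h0]
        have := (abs_nonneg _).trans (hC x hx)
        have := abs_nonneg (d x)
        linarith
      · have h3 := (le_abs_self _).trans (hC _ hm)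
        have e : d (x + ((C + 1 + |d x|) / d v) • v) = d x + (C + 1 + |d x|) := by
          rw [map_add, map_smul, smul_eq_mul, div_mul_cancel₀ _ h0]
        rw [e] at h3
        have := neg_abs_le (d x)
        linarith
  obtain ⟨r, hr1, hr2⟩ := hex
  have hDn : ∀ f : R2 → ℝ, ∀ y, D (-v) f y = -D v f y := fun f y => D_neg v f y
  have hr0 : r ≠ 0 := by
    rintro rfl
    apply hr2; simpa using hx
  rcases lt_or_gt_of_ne hr0 with hneg | hp
  · have hdv : d v ≤ 0 := by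
      by_contra hcon
      push Not at hcon
      have := mul_neg_of_neg_of_pos hneg hcon
      linarith
    obtain ⟨r1, h3, h4⟩ := exit_est hS hu hρ hpos hfr hV.neg
      (fun y hy => by rw [hDn, h1 y hy, neg_zero]) (fun y hy => by rw [hDn, h2 y hy, neg_zero])
      hB hx (r := -r) (by linarith) (by simpa using hr2)
    refine ⟨_, ?_, h4⟩
    have e : d (x + r1 • -v) = d x - r1 * d v := by simp [sub_eq_add_neg]
    rw [e]
    have := mul_nonpos_of_nonneg_of_nonpos h3 hdv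
    linarith
  · have hdv : 0 ≤ d v := by
      by_contra hcon
      push Not at hcon
      have := mul_neg_of_pos_of_neg hp hcon
      linarith
    obtain ⟨r1, h3, h4⟩ := exit_est hS hu hρ hpos hfr hV h1 h2 hB hx hp.le hr2
    refine ⟨_, ?_, h4⟩
    have e : d (x + r1 • v) = d x + r1 * d v := by simp
    rw [e]
    have := mul_nonneg h3 hdv
    linarith

/-- **The Gronwall step** (in coordinates).  `S` is open, `du = 0` on the frontier of `S`, and on
`S` the metric `ρ` and `ρ u` are sums of functions of one variable.  If a nonzero linear form `d`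
is bounded on `S` and no complete axis line in `ker d` is contained in `S`, then `u` is locally
constant on `S`. -/
theorem gron {S : Set R2} (hS : IsOpen S) {u ρ : R2 → ℝ}
    (hu : ContDiff ℝ (⊤ : ℕ∞) u) (hρ : ContDiff ℝ (⊤ : ℕ∞) ρ) (hpos : ∀ x, 0 < ρ x)
    {B B' : ℝ} (hB1 : ∀ x, |D (1, 0) ρ x| ≤ B * ρ x) (hB2 : ∀ x, |D (0, 1) ρ x| ≤ B * ρ x)
    (hB1' : ∀ x, |D (1, 0) u x| ≤ B') (hB2' : ∀ x, |D (0, 1) u x| ≤ B')
    (hfr : ∀ x ∈ frontier S, fderiv ℝ u x = 0)
    (h1 : ∀ x ∈ S, D (0, 1) (D (1, 0) ρ) x = 0)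
    (h2 : ∀ x ∈ S, D (0, 1) (D (1, 0) fun y => ρ y * u y) x = 0)
    (d : R2 →ₗ[ℝ] ℝ) (hd : d (1, 0) ≠ 0 ∨ d (0, 1) ≠ 0) {C : ℝ} (hC : ∀ x ∈ S, |d x| ≤ C)
    (hl1 : d (1, 0) = 0 → ∀ x ∈ S, ∃ r : ℝ, x + r • ((1, 0) : R2) ∉ S)
    (hl2 : d (0, 1) = 0 → ∀ x ∈ S, ∃ r : ℝ, x + r • ((0, 1) : R2) ∉ S) :
    ∀ x ∈ S, fderiv ℝ u x = 0 := by
  have hV1 := Vp_inc1 hu hS hfr
  have hV2 := Vp_inc2 hu (S := S) hfr
  set V := Vp S u with hVdef
  have hC' : ∀ x ∈ S, d x ≤ C := fun x hx => (le_abs_self _).trans (hC x hx)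
  have hfar := far_const d hV1 hV2 hC'
  have hB0 : 0 ≤ B := by
    by_contra hcon
    push Not at hcon
    have := (abs_nonneg _).trans (hB1 0)
    have := mul_neg_of_neg_of_pos hcon (hpos 0)
    linarith
  have est1 := est_dir hS hu hρ hpos hfr (v := (1, 0)) (w := (0, 1)) hV1
    (fun x hx => by rw [D_comm hρ]; exact h1 x hx)
    (fun x hx => by rw [D_comm (hρ.mul hu)]; exact h2 x hx) hB2 d hC hl1
  have est2 := est_dir hS hu hρ hpos hfr (v := (0, 1)) (w := (1, 0)) hV2 h1 h2 hB1 d hC hl2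
  have hVc : ∀ x y, V x = V y := by
    have hgen : ∀ w : R2, d w ≠ 0 → Inc S u V w → (∀ x, |D w u x| ≤ B') →
        (∀ x ∈ S, ∃ y, d x ≤ d y ∧ |D w u x| ≤ B * |V y - V x|) → ∀ x y, V x = V y := by
      intro w hw hVw hbd hest
      rcases lt_or_gt_of_ne hw with h | h
      · refine core d (w := -w) (by simpa using h) hVw.neg hB0 (B' := B')
          (fun x => by rw [D_neg, abs_neg]; exact hbd x)
          (fun x hx => by rw [D_neg, abs_neg]; exact hest x hx) hfar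
      · exact core d h hVw hB0 hbd hest hfar
    rcases hd with h | h
    · exact hgen _ h hV1 hB1' est2
    · exact hgen _ h hV2 hB2' est1
  have hzero : ∀ v : R2, Inc S u V v → ∀ x ∈ S, D v u x = 0 := by
    intro v hVv x hx
    have hc : Continuous fun s : ℝ => S.indicator (D v u) (x + s • v) :=
      (ind_cont v hu hfr).comp (by fun_prop)
    have h3 : (fun r : ℝ => ∫ s in (0 : ℝ)..r, S.indicator (D v u) (x + s • v)) = fun _ => 0 := by
      funext r
      rw [← hVv x r, hVc (x + r • v) x, sub_self]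
    have h4 := hc.deriv_integral _ 0 0
    rw [h3] at h4
    simp only [deriv_const, zero_smul, add_zero] at h4
    rw [indicator_of_mem hx] at h4
    exact h4.symm
  intro x hx
  have e1 := hzero _ hV1 x hx
  have e2 := hzero _ hV2 x hx
  refine ContinuousLinearMap.ext fun v => ?_
  have hv : v = v.1 • ((1, 0) : R2) + v.2 • ((0, 1) : R2) := by ext <;> simp
  rw [hv, map_add, map_smul, map_smul]
  unfold D at e1 e2
  rw [e1, e2]; simp

end Pool.W4b1b5d.H13
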