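import Pool.Agent.W_4b1b5d_h13.GronR2
import Pool.Agent.W_4b1b5d_h34.Wave

set_option autoImplicit false

open Set Filter MeasureTheory Topology

namespace Pool.W4b1b5d.H13

open Pool.W4b1b5d.H3

/-- The linear chart given by two vectors. -/
noncomputable def Phi (e f : V2) : R2 →L[ℝ] V2 :=
  (ContinuousLinearMap.fst ℝ ℝ ℝ).smulRight e + (ContinuousLinearMap.snd ℝ ℝ ℝ).smulRight f

theorem Phi_apply (e f : V2) (z : R2) : Phi e f z = z.1 • e + z.2 • f := by
  simp [Phi]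

theorem Phi_e (e f : V2) : Phi e f (1, 0) = e := by simp [Phi_apply]

theorem Phi_f (e f : V2) : Phi e f (0, 1) = f := by simp [Phi_apply]

theorem fderiv_Phi (e f : V2) {u : V2 → ℝ} (hu : Differentiable ℝ u) (z : R2) :
    fderiv ℝ (fun y => u (Phi e f y)) z = (fderiv ℝ u (Phi e f z)).comp (Phi e f) :=
  ((hu (Phi e f z)).hasFDerivAt.comp z (Phi e f).hasFDerivAt).fderiv

theorem D_Phi (e f : V2) {u : V2 → ℝ} (hu : Differentiable ℝ u) (v : R2) :
    D v (fun y => u (Phi e f y)) = fun z => Lines_D (Phi e f v) u (Phi e f z) := by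
  funext z
  unfold D Lines_D
  rw [fderiv_Phi e f hu]; rfl

/-- **The Gronwall step.**  `S ⊆ ℝ²` is open, `u`, `ρ > 0` are smooth and periodic, `du = 0` on the
frontier of `S`, and on `S` both `ρ` and `ρ u` satisfy `∂_f ∂_e = 0`.  If a nonzero linear form `d`
is bounded on `S` and `du` does not vanish identically on `S`, then `ker d` contains one of the
axes `e`, `f` and a complete line in this direction is contained in `S`. -/
theorem gronwall {S : Set V2} (hS : IsOpen S) {u ρ : V2 → ℝ}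
    (hu : ContDiff ℝ (⊤ : ℕ∞) u) (hρ : ContDiff ℝ (⊤ : ℕ∞) ρ) (hpu : Per u) (hpρ : Per ρ)
    (hpos : ∀ x, 0 < ρ x) (hfr : ∀ x ∈ frontier S, fderiv ℝ u x = 0)
    (e f : V2) (hspan : ∀ v : V2, ∃ s t : ℝ, v = s • e + t • f)
    (h1 : ∀ x ∈ S, Lines_D f (Lines_D e ρ) x = 0)
    (h2 : ∀ x ∈ S, Lines_D f (Lines_D e fun y => ρ y * u y) x = 0)
    (d : V2 →ₗ[ℝ] ℝ) (hd : d ≠ 0) {C : ℝ} (hC : ∀ x ∈ S, |d x| ≤ C)
    (hne : ∃ x ∈ S, fderiv ℝ u x ≠ 0) :
    ∃ v : V2, (v = e ∨ v = f) ∧ d v = 0 ∧ ∃ x ∈ S, ∀ r : ℝ, x + r • v ∈ S := by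
  by_contra hcon
  push Not at hcon
  obtain ⟨x0, hx0, hx0'⟩ := hne
  have hdiff : ∀ {g : V2 → ℝ}, ContDiff ℝ (⊤ : ℕ∞) g → Differentiable ℝ g := fun hg =>
    hg.differentiable (by simp)
  have hDs : ∀ (v : V2) {g : V2 → ℝ}, ContDiff ℝ (⊤ : ℕ∞) g → ContDiff ℝ (⊤ : ℕ∞) (Lines_D v g) :=
    fun v g hg => (hg.fderiv_right (m := ((⊤ : ℕ∞) : WithTop ℕ∞)) (by simp)).clm_apply contDiff_const
  have hDp : ∀ (v : V2) {g : V2 → ℝ}, Per g → Per (Lines_D v g) := by
    intro v g hg x k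
    unfold Lines_D
    have : g = fun y => g (y + fun i => (k i : ℝ)) := by funext y; exact (hg y k).symm
    conv_rhs => rw [this]
    rw [fderiv_comp_add_right]
  have hbd : ∀ v : V2, ∃ B, ∀ x, |Lines_D v u x| ≤ B := fun v =>
    Pool.W4b1b5d.H34.per_bdd (hDs v hu).continuous (hDp v hpu)
  have hbρ : ∀ v : V2, ∃ B, ∀ x, |Lines_D v ρ x| ≤ B * ρ x := by
    intro v
    obtain ⟨B, hB⟩ := Pool.W4b1b5d.H34.per_bdd (f := fun x => Lines_D v ρ x / ρ x)
      ((hDs v hρ).continuous.div hρ.continuous fun x => (hpos x).ne')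
      (fun x k => by
        show Lines_D v ρ _ / ρ _ = Lines_D v ρ x / ρ x
        rw [hDp v hpρ x k, hpρ x k])
    refine ⟨B, fun x => ?_⟩
    have := hB x
    rw [abs_div, abs_of_pos (hpos x), div_le_iff₀ (hpos x)] at this
    exact this
  obtain ⟨B1, hB1⟩ := hbρ e
  obtain ⟨B2, hB2⟩ := hbρ f
  obtain ⟨B3, hB3⟩ := hbd e
  obtain ⟨B4, hB4⟩ := hbd f
  set P := Phi e f with hP
  have hPc : Continuous P := P.continuous
  have hPe : P (1, 0) = e := Phi_e e f
  have hPf : P (0, 1) = f := Phi_f e f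
  have huP : ContDiff ℝ (⊤ : ℕ∞) fun z => u (P z) := hu.comp P.contDiff
  have hρP : ContDiff ℝ (⊤ : ℕ∞) fun z => ρ (P z) := hρ.comp P.contDiff
  have hsurj : ∀ v : V2, ∃ z : R2, P z = v := by
    intro v
    obtain ⟨s, t, hst⟩ := hspan v
    exact ⟨(s, t), by rw [hP, Phi_apply, hst]⟩
  have hD1 : ∀ {g : V2 → ℝ}, Differentiable ℝ g → ∀ z, D (1, 0) (fun y => g (P y)) z =
      Lines_D e g (P z) := by
    intro g hg z
    rw [hP, D_Phi e f hg, Phi_e]
  have hD2 : ∀ {g : V2 → ℝ}, Differentiable ℝ g → ∀ z, D (0, 1) (fun y => g (P y)) z =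
      Lines_D f g (P z) := by
    intro g hg z
    rw [hP, D_Phi e f hg, Phi_f]
  have hD12 : ∀ {g : V2 → ℝ}, ContDiff ℝ (⊤ : ℕ∞) g → ∀ z,
      D (0, 1) (D (1, 0) fun y => g (P y)) z = Lines_D f (Lines_D e g) (P z) := by
    intro g hg z
    have : (D (1, 0) fun y => g (P y)) = fun z => Lines_D e g (P z) := by
      funext z; exact hD1 (hdiff hg) z
    rw [this, hD2 (hdiff (hDs e hg))]
  have hd2 : (d.comp (P : R2 →ₗ[ℝ] V2)) (1, 0) ≠ 0 ∨ (d.comp (P : R2 →ₗ[ℝ] V2)) (0, 1) ≠ 0 := by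
    by_contra hc
    push Not at hc
    apply hd
    refine LinearMap.ext fun v => ?_
    obtain ⟨s, t, hst⟩ := hspan v
    have c1 : d e = 0 := by rw [← hPe]; exact hc.1
    have c2 : d f = 0 := by rw [← hPf]; exact hc.2
    rw [hst, map_add, map_smul, map_smul, c1, c2]; simp
  have hleave : ∀ (v : V2) (z v' : R2), (v = e ∨ v = f) → P v' = v → d v = 0 → P z ∈ S →
      ∃ r : ℝ, z + r • v' ∉ P ⁻¹' S := by
    intro v z v' hv hPv hdv hz
    obtain ⟨r, hr⟩ := hcon v hv hdv (P z) hz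
    refine ⟨r, fun hm => hr ?_⟩
    have : P (z + r • v') = P z + r • v := by rw [map_add, map_smul, hPv]
    rw [← this]; exact hm
  have hmain := gron (S := P ⁻¹' S) (u := fun z => u (P z)) (ρ := fun z => ρ (P z))
    (hS.preimage hPc) huP hρP (fun z => hpos _) (B := max B1 B2) (B' := max B3 B4)
    (fun z => by
      rw [hD1 (hdiff hρ)]
      exact (hB1 _).trans (mul_le_mul_of_nonneg_right (le_max_left _ _) (hpos _).le))
    (fun z => by
      rw [hD2 (hdiff hρ)]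
      exact (hB2 _).trans (mul_le_mul_of_nonneg_right (le_max_right _ _) (hpos _).le))
    (fun z => by rw [hD1 (hdiff hu)]; exact (hB3 _).trans (le_max_left _ _))
    (fun z => by rw [hD2 (hdiff hu)]; exact (hB4 _).trans (le_max_right _ _))
    (fun z hz => by
      have hz' : P z ∈ frontier S := hPc.frontier_preimage_subset S hz
      rw [hP, fderiv_Phi e f (hdiff hu), ← hP, hfr _ hz']; rfl)
    (fun z hz => by rw [hD12 hρ]; exact h1 _ hz)
    (fun z hz => by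
      rw [show (fun y => ρ (P y) * u (P y)) = fun y => (fun x => ρ x * u x) (P y) from rfl,
        hD12 (hρ.mul hu)]
      exact h2 _ hz)
    (d.comp (P : R2 →ₗ[ℝ] V2)) hd2 (C := C) (fun z hz => hC _ hz)
    (fun h0 z hz => hleave e z (1, 0) (Or.inl rfl) hPe (by rw [← hPe]; exact h0) hz)
    (fun h0 z hz => hleave f z (0, 1) (Or.inr rfl) hPf (by rw [← hPf]; exact h0) hz)
  obtain ⟨z0, hz0⟩ := hsurj x0
  have h3 := hmain z0 (by show P z0 ∈ S; rw [hz0]; exact hx0)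
  rw [hP, fderiv_Phi e f (hdiff hu), ← hP, hz0] at h3
  apply hx0'
  refine ContinuousLinearMap.ext fun v => ?_
  obtain ⟨z, hz⟩ := hsurj v
  rw [← hz]
  have := congrArg (fun L : R2 →L[ℝ] ℝ => L z) h3
  simpa using this

end Pool.W4b1b5d.H13
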