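import Pool.Agent.W_4b1b5d_h13.Irr
import Pool.Agent.W_4b1b5d_h34.OddPart
import Pool.Agent.W_4b1b5d_h3.Final

set_option autoImplicit false

open Set Filter MeasureTheory Topology MvPolynomial

namespace Pool.W4b1b5d.H13

open Pool.W4b1b5d.H3 Pool.Agent.U4b

/-- the linear form -/
noncomputable def Lf (w : V2) : MvPolynomial (Fin 2) ℝ := ∑ j, C (w j) * X j

theorem Lf_eval (w p : V2) : eval p (Lf w) = w 0 * p 0 + w 1 * p 1 := by
  simp [Lf, Fin.sum_univ_two]

theorem Lf_degree (w : V2) : (Lf w).totalDegree ≤ 1 := by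
  refine totalDegree_finsetSum_le fun i _ => ?_
  refine (totalDegree_mul _ _).trans ?_
  rw [totalDegree_C, totalDegree_X]

theorem Lf_int (G : Matrix (Fin 2) (Fin 2) ℝ) {mu U : V2 → ℝ}
    (hmu : ContDiff ℝ (⊤ : ℕ∞) mu) (hU : ContDiff ℝ (⊤ : ℕ∞) U) (w : V2)
    (h1 : ∀ x, fderiv ℝ mu x w = 0) (h2 : ∀ x, fderiv ℝ U x w = 0) :
    IsInt (Ham (fun x => mu x • G) U) (fun _ => Lf w) := by
  refine ⟨fun m => contDiff_const, fun x k => rfl, ⟨1, fun x => Lf_degree w⟩, fun x p => ?_⟩
  exact lin_int G mu U hmu hU _ (fun x p => by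
    simp only [Ham, Matrix.smul_apply, smul_eq_mul]) w h1 h2 x p

theorem ham_zero (G : Matrix (Fin 2) (Fin 2) ℝ) (mu U : V2 → ℝ) (x v : V2) (t : ℝ) :
    Ham (fun x => mu x • G) U x (t • v) =
      t ^ 2 * (Ham (fun x => mu x • G) (fun _ => 0) x v) + U x := by
  simp only [Ham, Matrix.smul_apply, smul_eq_mul, Fin.sum_univ_two, Pi.smul_apply]
  ring

theorem ham_pos {G : Matrix (Fin 2) (Fin 2) ℝ} (hG : G.PosDef) {mu : V2 → ℝ}
    (hpos : ∀ x, 0 < mu x) (x : V2) {v : V2} (hv : v ≠ 0) :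
    0 < Ham (fun x => mu x • G) (fun _ => 0) x v := by
  have h := hG.dotProduct_mulVec_pos hv
  simp only [dotProduct, Matrix.mulVec, Fin.sum_univ_two,
    Pi.star_apply, star_trivial] at h
  simp only [Ham, Matrix.smul_apply, smul_eq_mul, Fin.sum_univ_two]
  nlinarith [hpos x, mul_pos (hpos x) h]

/-- An invariant direction gives part (ii). -/
theorem partII_of_inv {G : Matrix (Fin 2) (Fin 2) ℝ} (hG : G.PosDef) {mu U : V2 → ℝ}
    (hmu : ContDiff ℝ (⊤ : ℕ∞) mu) (hpos : ∀ x, 0 < mu x) (hU : ContDiff ℝ (⊤ : ℕ∞) U)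
    {w : V2} (hw : w ≠ 0)
    (h1 : ∀ x, fderiv ℝ mu x w = 0) (h2 : ∀ x, fderiv ℝ U x w = 0) :
    PartII (Ham (fun x => mu x • G) U) := by
  intro _
  have hL := Lf_int G hmu hU w h1 h2
  refine ⟨fun _ => Lf w * Lf w, IsInt.mul hL hL, fun x => ?_, ?_⟩
  · exact (totalDegree_mul _ _).trans (add_le_add (Lf_degree w) (Lf_degree w))
  · rintro ⟨q, hq⟩
    set v : V2 := ![-w 1, w 0] with hv
    have hv0 : v ≠ 0 := by
      intro h
      apply hw
      have e0 := congrFun h 0
      have e1 := congrFun h 1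
      simp [hv] at e0 e1
      ext i; fin_cases i <;> simp [e0, e1]
    have hc := ham_pos hG hpos 0 hv0
    set c := Ham (fun x => mu x • G) (fun _ => 0) 0 v with hcdef
    have hroot : ∀ s : ℝ, 0 ≤ s → q.eval (s * c + U 0) = 0 := by
      intro s hs
      have := hq 0 (Real.sqrt s • v)
      rw [ham_zero, Real.sq_sqrt hs] at this
      rw [← this]
      simp only [map_mul, Lf_eval, hv, Pi.smul_apply, smul_eq_mul, Matrix.cons_val_zero,
        Matrix.cons_val_one]
      ring
    have hq0 : q = 0 := by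
      refine Polynomial.eq_zero_of_infinite_isRoot q ?_
      refine Set.Infinite.mono (s := (fun s : ℝ => s * c + U 0) '' Ici 0) ?_ ?_
      · rintro _ ⟨s, hs, rfl⟩
        exact hroot s hs
      · refine Set.Infinite.image ?_ (Set.Ici_infinite 0)
        intro a _ b _ hab
        simp only at hab
        have : a * c = b * c := by linarith
        exact mul_right_cancel₀ hc.ne' this
    have h3 := hq 0 w
    rw [hq0] at h3
    simp only [map_mul, Lf_eval, Polynomial.eval_zero] at h3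
    have h4 : w 0 * w 0 + w 1 * w 1 = 0 := by
      rcases mul_eq_zero.1 h3 with h | h <;> exact h
    apply hw
    ext i
    fin_cases i
    · simp; nlinarith [mul_self_nonneg (w 0), mul_self_nonneg (w 1)]
    · simp; nlinarith [mul_self_nonneg (w 0), mul_self_nonneg (w 1)]

end Pool.W4b1b5d.H13
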