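import Pool.Agent.W_4b1b5d_h13.Dim

set_option autoImplicit false

open Set Filter MeasureTheory Topology

namespace Pool.W4b1b5d.H13

open Pool.W4b1b5d.H3

/-- `v` is parallel to an integer vector -/
def Rat (v : V2) : Prop := ∃ (k : Fin 2 → ℤ) (c : ℝ), k ≠ 0 ∧ v = c • (fun i => (k i : ℝ) : V2)

theorem irr_of_not_rat {v : V2} (h : ¬ Rat v) : v 1 ≠ 0 ∧ Irrational (v 0 / v 1) := by
  have h1 : v 1 ≠ 0 := by
    intro h1
    apply h
    refine ⟨![1, 0], v 0, ?_, ?_⟩
    · intro hc; have := congrFun hc 0; simp at this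
    · ext i; fin_cases i <;> simp [h1]
  refine ⟨h1, ?_⟩
  rintro ⟨q, hq⟩
  apply h
  have hqd : (q.den : ℝ) ≠ 0 := by exact_mod_cast q.den_nz
  refine ⟨![q.num, (q.den : ℤ)], v 1 / q.den, ?_, ?_⟩
  · intro hc; have := congrFun hc 1; simp at this
  · have e : (q : ℝ) = (q.num : ℝ) / (q.den : ℝ) := by exact_mod_cast (Rat.num_div_den q).symm
    ext i
    fin_cases i
    · simp
      rw [e, div_eq_div_iff hqd h1] at hq
      field_simp
      linarith
    · simp
      try field_simp

/-- a continuous periodic function which is constant on an irrational line is constant -/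
theorem dense_line {g : V2 → ℝ} (hg : Continuous g) (hp : Per g) {x0 v : V2} (hirr : ¬ Rat v)
    {c : ℝ} (hconst : ∀ r : ℝ, g (x0 + r • v) = c) (x : V2) : g x = c := by
  obtain ⟨h1, h2⟩ := irr_of_not_rat hirr
  set al := v 0 / v 1 with hal
  have hdense : Dense (AddSubgroup.closure {al, (1 : ℝ)} : Set ℝ) := by
    rw [dense_addSubgroupClosure_pair_iff]; simpa using h2
  set t0 := x0 0 + (x 1 - x0 1) * al with ht0
  have hc1 : Continuous fun t : ℝ => g (![t0 + t, x 1]) := by
    refine hg.comp ?_
    refine continuous_pi fun i => ?_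
    fin_cases i
    · simp; fun_prop
    · simp; fun_prop
  have heq : EqOn (fun t : ℝ => g (![t0 + t, x 1])) (fun _ => c)
      (AddSubgroup.closure {al, (1 : ℝ)} : Set ℝ) := by
    intro t ht
    obtain ⟨m, n, hmn⟩ := AddSubgroup.mem_closure_pair.1 ht
    have hpt : (![t0 + t, x 1] : V2) =
        (x0 + ((x 1 - x0 1 + m) / v 1) • v) + fun i => ((![n, -m] : Fin 2 → ℤ) i : ℝ) := by
      ext i
      fin_cases i
      · simp [← hmn, ht0, hal]
        field_simp
        ring
      · simp
        field_simp
        ring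
    show g (![t0 + t, x 1]) = c
    rw [hpt, hp, hconst]
  have hall := Continuous.ext_on hdense hc1 continuous_const heq
  have h3 : g (![t0 + (x 0 - t0), x 1]) = c := congrFun hall (x 0 - t0)
  have hx : (![t0 + (x 0 - t0), x 1] : V2) = x := by
    ext i; fin_cases i <;> simp
  rwa [hx] at h3

theorem line_irr {S : Set V2} {g : V2 → ℝ} (hg : ContDiff ℝ (⊤ : ℕ∞) g) (hper : Per g)
    {v w x0 : V2} (hl : ∀ r : ℝ, x0 + r • v ∈ S)
    (h : ∀ x ∈ S, Lines_D v (Lines_D w g) x = 0) (hirr : ¬ Rat v) (x : V2) :
    Lines_D w g x = 0 := by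
  have hDs : ContDiff ℝ (⊤ : ℕ∞) (Lines_D w g) :=
    (hg.fderiv_right (m := ((⊤ : ℕ∞) : WithTop ℕ∞)) (by simp)).clm_apply contDiff_const
  have hDp : Per (Lines_D w g) := by
    intro x k
    unfold Lines_D
    have : g = fun y => g (y + fun i => (k i : ℝ)) := by funext y; exact (hper y k).symm
    conv_rhs => rw [this]
    rw [fderiv_comp_add_right]
  have hline : ∀ {f : V2 → ℝ} (_ : Differentiable ℝ f) (y a : V2) (s : ℝ),
      HasDerivAt (fun s : ℝ => f (y + s • a)) (Lines_D a f (y + s • a)) s := by
    intro f hf y a s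
    have h1 : HasDerivAt (fun s : ℝ => y + s • a) a s := by
      have := ((hasDerivAt_id s).smul_const a).const_add y
      simpa using this
    exact (hf (y + s • a)).hasFDerivAt.comp_hasDerivAt s h1
  have hconst : ∀ r : ℝ, Lines_D w g (x0 + r • v) = Lines_D w g x0 := by
    intro r
    have hd : ∀ s : ℝ, HasDerivAt (fun s : ℝ => Lines_D w g (x0 + s • v)) 0 s := by
      intro s
      have := hline (hDs.differentiable (by simp)) x0 v s
      rwa [h _ (hl s)] at this
    have := is_const_of_deriv_eq_zero (f := fun s : ℝ => Lines_D w g (x0 + s • v))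
      (fun s => (hd s).differentiableAt) (fun s => (hd s).deriv) r 0
    simpa using this
  have hall : ∀ y, Lines_D w g y = Lines_D w g x0 :=
    fun y => dense_line hDs.continuous hDp hirr hconst y
  set c := Lines_D w g x0 with hc
  rw [hall x]
  obtain ⟨B, hB⟩ := Pool.W4b1b5d.H34.per_bdd hg.continuous hper
  by_contra hne
  have hlin : ∀ r : ℝ, g (x0 + r • w) = g x0 + r * c := by
    intro r
    have hd : ∀ s : ℝ, HasDerivAt (fun s : ℝ => g (x0 + s • w) - s * c) 0 s := by
      intro s
      have h1 := hline (hg.differentiable (by simp)) x0 w s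
      rw [hall] at h1
      have h2 : HasDerivAt (fun s : ℝ => s * c) c s := by
        simpa using (hasDerivAt_id s).mul_const c
      have h3 := h1.sub h2
      rw [sub_self] at h3
      exact h3
    have := is_const_of_deriv_eq_zero (f := fun s : ℝ => g (x0 + s • w) - s * c)
      (fun s => (hd s).differentiableAt) (fun s => (hd s).deriv) r 0
    simp at this
    linarith
  have h1 := hB (x0 + ((B + 1 + |g x0|) / c) • w)
  rw [hlin, div_mul_cancel₀ _ hne] at h1
  have h3 := (le_abs_self _).trans h1
  have := neg_abs_le (g x0)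
  linarith

end Pool.W4b1b5d.H13
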