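import Pool.Agent.W_4b1b5d_h13.Inv

set_option autoImplicit false

open Set Filter MeasureTheory Topology MvPolynomial

namespace Pool.W4b1b5d.H13

open Pool.W4b1b5d.H3 Pool.Agent.U4b

theorem LD_mul {f g : V2 → ℝ} (hf : Differentiable ℝ f) (hg : Differentiable ℝ g) (v x : V2) :
    Lines_D v (fun y => f y * g y) x = Lines_D v f x * g x + f x * Lines_D v g x := by
  unfold Lines_D
  have h := ((hf x).hasFDerivAt.mul (hg x).hasFDerivAt).fderiv
  have h2 : (fun y => f y * g y) = f * g := rfl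
  rw [h2, h]
  simp only [_root_.add_apply, _root_.smul_apply, smul_eq_mul]
  ring

/-- The irrational case: if `S` contains a complete irrational line in the direction of one axis
`v`, the metric and the potential are invariant along the other axis `w`. -/
theorem inv_of_irr {S : Set V2} {mu U : V2 → ℝ}
    (hmu : ContDiff ℝ (⊤ : ℕ∞) mu) (hpos : ∀ x, 0 < mu x) (hpmu : Per mu)
    (hU : ContDiff ℝ (⊤ : ℕ∞) U) (hpU : Per U) {v w x0 : V2}
    (hl : ∀ r : ℝ, x0 + r • v ∈ S)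
    (h1 : ∀ x ∈ S, Lines_D v (Lines_D w fun y => (mu y)⁻¹) x = 0)
    (h2 : ∀ x ∈ S, Lines_D v (Lines_D w fun y => (mu y)⁻¹ * U y) x = 0)
    (hirr : ¬ Rat v) : (∀ x, fderiv ℝ mu x w = 0) ∧ ∀ x, fderiv ℝ U x w = 0 := by
  have hinv : ContDiff ℝ (⊤ : ℕ∞) fun y => (mu y)⁻¹ := hmu.inv fun x => (hpos x).ne'
  have hpi : Per fun y => (mu y)⁻¹ := fun x k => by simp only [hpmu x k]
  have hpiU : Per fun y => (mu y)⁻¹ * U y := fun x k => by simp only [hpmu x k, hpU x k]
  have e1 := line_irr hinv hpi hl h1 hirr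
  have e2 := line_irr (hinv.mul hU) hpiU hl h2 hirr
  have hmd : Differentiable ℝ mu := hmu.differentiable (by simp)
  have hid : Differentiable ℝ fun y => (mu y)⁻¹ := hinv.differentiable (by simp)
  have hUd : Differentiable ℝ U := hU.differentiable (by simp)
  refine ⟨fun x => ?_, fun x => ?_⟩
  · have h3 := LD_mul hmd hid w x
    have h4 : (fun y => mu y * (mu y)⁻¹) = fun _ => (1 : ℝ) := by
      funext y; exact mul_inv_cancel₀ (hpos y).ne'
    rw [h4, e1 x] at h3
    unfold Lines_D at h3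
    rw [fderiv_fun_const] at h3
    simp at h3
    rcases h3 with h | h
    · exact h
    · exact absurd h (hpos x).ne'
  · have h3 := LD_mul hid hUd w x
    have h5 : Lines_D w (fun y => (mu y)⁻¹ * U y) x = 0 := e2 x
    rw [h5, e1 x] at h3
    simp only [zero_mul, zero_add] at h3
    rcases mul_eq_zero.1 h3.symm with h | h
    · exact absurd h (inv_ne_zero (hpos x).ne')
    · exact h

/-- Part (ii) in the irrational case. -/
theorem partII_of_irr {S : Set V2} {G : Matrix (Fin 2) (Fin 2) ℝ} (hG : G.PosDef) {mu U : V2 → ℝ}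
    (hmu : ContDiff ℝ (⊤ : ℕ∞) mu) (hpos : ∀ x, 0 < mu x) (hpmu : Per mu)
    (hU : ContDiff ℝ (⊤ : ℕ∞) U) (hpU : Per U) {v w x0 : V2} (hw : w ≠ 0)
    (hl : ∀ r : ℝ, x0 + r • v ∈ S)
    (h1 : ∀ x ∈ S, Lines_D v (Lines_D w fun y => (mu y)⁻¹) x = 0)
    (h2 : ∀ x ∈ S, Lines_D v (Lines_D w fun y => (mu y)⁻¹ * U y) x = 0)
    (hirr : ¬ Rat v) : PartII (Ham (fun x => mu x • G) U) := by
  obtain ⟨a, b⟩ := inv_of_irr hmu hpos hpmu hU hpU hl h1 h2 hirr
  exact partII_of_inv hG hmu hpos hU hw a b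

end Pool.W4b1b5d.H13
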