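import Pool.Agent.W_4b1b5d_h13.RectE

set_option autoImplicit false

open Set Filter MeasureTheory Topology

namespace Pool.W4b1b5d.H13

/-- Derivative in the direction `v`. -/
noncomputable def D (v : R2) (f : R2 → ℝ) (x : R2) : ℝ := fderiv ℝ f x v

theorem D_smooth (v : R2) {u : R2 → ℝ} (hu : ContDiff ℝ (⊤ : ℕ∞) u) :
    ContDiff ℝ (⊤ : ℕ∞) (D v u) :=
  (hu.fderiv_right (m := ((⊤ : ℕ∞) : WithTop ℕ∞)) (by simp)).clm_apply contDiff_const

theorem D_neg (v : R2) (f : R2 → ℝ) (x : R2) : D (-v) f x = -D v f x := by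
  unfold D; simp

theorem ind_cont (v : R2) {u : R2 → ℝ} (hu : ContDiff ℝ (⊤ : ℕ∞) u) {S : Set R2}
    (hfr : ∀ x ∈ frontier S, fderiv ℝ u x = 0) : Continuous (S.indicator (D v u)) := by
  refine continuous_indicator (fun x hx => ?_) (D_smooth v hu).continuous.continuousOn
  unfold D; rw [hfr x hx]; rfl

/-- `V` is a primitive of `1_S du` in the direction `v`. -/
def Inc (S : Set R2) (u V : R2 → ℝ) (v : R2) : Prop :=
  ∀ (x : R2) (r : ℝ), V (x + r • v) - V x = ∫ s in (0 : ℝ)..r, S.indicator (D v u) (x + s • v)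

theorem Inc.neg {S : Set R2} {u V : R2 → ℝ} {v : R2} (h : Inc S u V v) : Inc S u V (-v) := by
  intro x r
  have h1 := h x (-r)
  have e1 : x + r • -v = x + (-r) • v := by simp
  rw [e1, h1]
  have e2 : (fun s : ℝ => S.indicator (D (-v) u) (x + s • -v)) =
      fun s => -((fun t : ℝ => S.indicator (D v u) (x + t • v)) (-s)) := by
    funext s
    have e3 : x + s • -v = x + (-s) • v := by simp
    simp only [e3]
    by_cases hx : x + (-s) • v ∈ S
    · rw [indicator_of_mem hx, indicator_of_mem hx, D_neg]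
    · rw [indicator_of_notMem hx, indicator_of_notMem hx, neg_zero]
  rw [e2, intervalIntegral.integral_neg,
    intervalIntegral.integral_comp_neg (fun t : ℝ => S.indicator (D v u) (x + t • v)),
    neg_zero, intervalIntegral.integral_symm]
  

/-- The potential. -/
noncomputable def Vp (S : Set R2) (u : R2 → ℝ) (x : R2) : ℝ :=
  (∫ s in (0 : ℝ)..x.1, S.indicator (d1 u) (s, 0)) + ∫ t in (0 : ℝ)..x.2, S.indicator (d2 u) (x.1, t)

theorem shift_int (g : ℝ → ℝ) (a r : ℝ) : ∫ s in (0 : ℝ)..r, g (a + s) = ∫ s in a..(a + r), g s := by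
  rw [intervalIntegral.integral_comp_add_left (fun s => g s) a, add_zero]

theorem Vp_inc2 {u : R2 → ℝ} (hu : ContDiff ℝ (⊤ : ℕ∞) u) {S : Set R2}
    (hfr : ∀ x ∈ frontier S, fderiv ℝ u x = 0) : Inc S u (Vp S u) (0, 1) := by
  intro x r
  have hc : Continuous fun t : ℝ => S.indicator (d2 u) (x.1, t) :=
    (ind_cont (0, 1) hu hfr).comp (by fun_prop : Continuous fun t : ℝ => ((x.1, t) : R2))
  have e1 : x + r • ((0, 1) : R2) = (x.1, x.2 + r) := by ext <;> simp
  have e2 : (fun s : ℝ => S.indicator (D (0, 1) u) (x + s • ((0, 1) : R2))) =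
      fun s => (fun t => S.indicator (d2 u) (x.1, t)) (x.2 + s) := by
    funext s
    have : x + s • ((0, 1) : R2) = (x.1, x.2 + s) := by ext <;> simp
    rw [this]; rfl
  rw [e1, e2, shift_int (fun t => S.indicator (d2 u) (x.1, t)) x.2 r]
  simp only [Vp]
  rw [← intervalIntegral.integral_add_adjacent_intervals (a := 0) (b := x.2) (c := x.2 + r)
    (hc.intervalIntegrable _ _) (hc.intervalIntegrable _ _)]
  ring

theorem Vp_inc1 {u : R2 → ℝ} (hu : ContDiff ℝ (⊤ : ℕ∞) u) {S : Set R2} (hS : IsOpen S)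
    (hfr : ∀ x ∈ frontier S, fderiv ℝ u x = 0) : Inc S u (Vp S u) (1, 0) := by
  intro x r
  have hc : Continuous fun t : ℝ => S.indicator (d1 u) (t, 0) :=
    (ind_cont (1, 0) hu hfr).comp (by fun_prop : Continuous fun t : ℝ => ((t, 0) : R2))
  have e1 : x + r • ((1, 0) : R2) = (x.1 + r, x.2) := by ext <;> simp
  have e2 : (fun s : ℝ => S.indicator (D (1, 0) u) (x + s • ((1, 0) : R2))) =
      fun s => (fun t => S.indicator (d1 u) (t, x.2)) (x.1 + s) := by
    funext s
    have : x + s • ((1, 0) : R2) = (x.1 + s, x.2) := by ext <;> simp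
    rw [this]; rfl
  rw [e1, e2, shift_int (fun t => S.indicator (d1 u) (t, x.2)) x.1 r]
  have h1 := rect hu hS hfr x.1 (x.1 + r) 0 x.2
  simp only [Vp]
  rw [← intervalIntegral.integral_add_adjacent_intervals (a := 0) (b := x.1) (c := x.1 + r)
    (hc.intervalIntegrable _ _) (hc.intervalIntegrable _ _)]
  linarith

end Pool.W4b1b5d.H13
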