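import Mathlib

set_option autoImplicit false

open Set Filter MeasureTheory Topology

namespace Pool.W4b1b5d.H13

/-- The plane. -/
abbrev R2 := ℝ × ℝ

/-- First partial derivative. -/
noncomputable def d1 (f : R2 → ℝ) (x : R2) : ℝ := fderiv ℝ f x (1, 0)

/-- Second partial derivative. -/
noncomputable def d2 (f : R2 → ℝ) (x : R2) : ℝ := fderiv ℝ f x (0, 1)

theorem exists_cut : ∃ lam : ℝ → ℝ, ContDiff ℝ (⊤ : ℕ∞) lam ∧ (∀ s ≤ 1, lam s = 0) ∧
    (∀ s, 2 ≤ s → lam s = 1) ∧ (∀ s, |lam s| ≤ 1) ∧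
    (∀ s, (s < 1 ∨ 2 < s) → deriv lam s = 0) ∧ ∃ L, 0 ≤ L ∧ ∀ s, |deriv lam s| ≤ L := by
  have hcd : ContDiff ℝ (⊤ : ℕ∞) (fun s : ℝ => Real.smoothTransition (s - 1)) :=
    Real.smoothTransition.contDiff.comp (contDiff_id.sub contDiff_const)
  have h0 : ∀ s : ℝ, s ≤ 1 → Real.smoothTransition (s - 1) = 0 := fun s hs =>
    Real.smoothTransition.zero_of_nonpos (by linarith)
  have h1 : ∀ s : ℝ, 2 ≤ s → Real.smoothTransition (s - 1) = 1 := fun s hs =>
    Real.smoothTransition.one_of_one_le (by linarith)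
  have hd : ∀ s : ℝ, (s < 1 ∨ 2 < s) → deriv (fun s : ℝ => Real.smoothTransition (s - 1)) s = 0 := by
    rintro s (hs | hs)
    · have : (fun s : ℝ => Real.smoothTransition (s - 1)) =ᶠ[𝓝 s] fun _ => 0 := by
        filter_upwards [Iio_mem_nhds hs] with t ht using h0 t ht.le
      rw [this.deriv_eq]; simp
    · have : (fun s : ℝ => Real.smoothTransition (s - 1)) =ᶠ[𝓝 s] fun _ => 1 := by
        filter_upwards [Ioi_mem_nhds hs] with t ht using h1 t (le_of_lt ht)
      rw [this.deriv_eq]; simp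
  refine ⟨fun s => Real.smoothTransition (s - 1), hcd, h0, h1, fun s => ?_, hd, ?_⟩
  · rw [abs_of_nonneg (Real.smoothTransition.nonneg _)]
    exact Real.smoothTransition.le_one _
  · have hc : Continuous (deriv fun s : ℝ => Real.smoothTransition (s - 1)) :=
      hcd.continuous_deriv (by simp)
    obtain ⟨L, hL⟩ := (isCompact_Icc (a := (1 : ℝ)) (b := 2)).exists_bound_of_continuousOn
      hc.continuousOn
    refine ⟨max L 0, le_max_right _ _, fun s => ?_⟩
    by_cases hs : s ∈ Icc (1 : ℝ) 2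
    · exact (hL s hs).trans (le_max_left _ _)
    · rw [hd s (by
        by_contra hcon
        push Not at hcon
        exact hs ⟨hcon.1, hcon.2⟩)]
      simp

theorem ind_deriv {S : Set R2} (hS : IsOpen S) {f : R2 → ℝ} (hf : Differentiable ℝ f)
    (h0 : ∀ x ∈ frontier S, f =ᶠ[𝓝 x] fun _ => 0) (x : R2) :
    HasFDerivAt (S.indicator f) (S.indicator (fderiv ℝ f) x) x := by
  by_cases hx : x ∈ S
  · rw [indicator_of_mem hx]
    refine (hf x).hasFDerivAt.congr_of_eventuallyEq ?_
    filter_upwards [hS.mem_nhds hx] with y hy using indicator_of_mem hy f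
  · rw [indicator_of_notMem hx]
    have : S.indicator f =ᶠ[𝓝 x] fun _ => (0 : ℝ) := by
      by_cases hc : x ∈ closure S
      · have hfr : x ∈ frontier S := by
          rw [hS.frontier_eq]; exact ⟨hc, hx⟩
        filter_upwards [h0 x hfr] with y hy
        by_cases hyS : y ∈ S
        · rw [indicator_of_mem hyS, hy]
        · rw [indicator_of_notMem hyS]
      · filter_upwards [isClosed_closure.isOpen_compl.mem_nhds hc] with y hy
        exact indicator_of_notMem (fun h => hy (subset_closure h)) f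
    exact (hasFDerivAt_const (0 : ℝ) x).congr_of_eventuallyEq this

end Pool.W4b1b5d.H13
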