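import Pool.Agent.W_4b1b5d_h13.Rect

set_option autoImplicit false

open Set Filter MeasureTheory Topology

namespace Pool.W4b1b5d.H13

theorem d1_smooth {u : R2 → ℝ} (hu : ContDiff ℝ (⊤ : ℕ∞) u) : ContDiff ℝ (⊤ : ℕ∞) (d1 u) :=
  (hu.fderiv_right (m := ((⊤ : ℕ∞) : WithTop ℕ∞)) (by simp)).clm_apply contDiff_const

theorem d2_smooth {u : R2 → ℝ} (hu : ContDiff ℝ (⊤ : ℕ∞) u) : ContDiff ℝ (⊤ : ℕ∞) (d2 u) :=
  (hu.fderiv_right (m := ((⊤ : ℕ∞) : WithTop ℕ∞)) (by simp)).clm_apply contDiff_const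

theorem smooth_diff {u : R2 → ℝ} (hu : ContDiff ℝ (⊤ : ℕ∞) u) : Differentiable ℝ u :=
  hu.differentiable (by simp)

theorem d12_comm {u : R2 → ℝ} (hu : ContDiff ℝ (⊤ : ℕ∞) u) (x : R2) :
    d1 (d2 u) x = d2 (d1 u) x := by
  have hf : Differentiable ℝ (fderiv ℝ u) :=
    (hu.fderiv_right (m := ((⊤ : ℕ∞) : WithTop ℕ∞)) (by simp)).differentiable (by simp)
  have h1 : d1 (d2 u) x = fderiv ℝ (fderiv ℝ u) x (1, 0) (0, 1) := by
    unfold d1 d2
    have := ((hf x).hasFDerivAt.clm_apply (hasFDerivAt_const ((0, 1) : R2) x))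
    rw [this.fderiv]; simp
  have h2 : d2 (d1 u) x = fderiv ℝ (fderiv ℝ u) x (0, 1) (1, 0) := by
    unfold d1 d2
    have := ((hf x).hasFDerivAt.clm_apply (hasFDerivAt_const ((1, 0) : R2) x))
    rw [this.fderiv]; simp
  rw [h1, h2]
  have hs : IsSymmSndFDerivAt ℝ u x :=
    (hu.contDiffAt).isSymmSndFDerivAt (by
      rw [minSmoothness_of_isRCLikeNormedField]
      have : ((2 : ℕ∞) : WithTop ℕ∞) ≤ ((⊤ : ℕ∞) : WithTop ℕ∞) := by
        exact WithTop.coe_le_coe.mpr le_top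
      exact this)
  exact hs _ _

theorem d1_mul {f g : R2 → ℝ} (hf : Differentiable ℝ f) (hg : Differentiable ℝ g) (x : R2) :
    d1 (fun y => f y * g y) x = d1 f x * g x + f x * d1 g x := by
  unfold d1
  have h := ((hf x).hasFDerivAt.mul (hg x).hasFDerivAt).fderiv
  have h2 : (fun y => f y * g y) = f * g := rfl
  rw [h2, h]
  simp only [_root_.add_apply, _root_.smul_apply, smul_eq_mul]
  ring

theorem d2_mul {f g : R2 → ℝ} (hf : Differentiable ℝ f) (hg : Differentiable ℝ g) (x : R2) :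
    d2 (fun y => f y * g y) x = d2 f x * g x + f x * d2 g x := by
  unfold d2
  have h := ((hf x).hasFDerivAt.mul (hg x).hasFDerivAt).fderiv
  have h2 : (fun y => f y * g y) = f * g := rfl
  rw [h2, h]
  simp only [_root_.add_apply, _root_.smul_apply, smul_eq_mul]
  ring

theorem d1_add {f g : R2 → ℝ} (hf : Differentiable ℝ f) (hg : Differentiable ℝ g) (x : R2) :
    d1 (fun y => f y + g y) x = d1 f x + d1 g x := by
  unfold d1
  have h := ((hf x).hasFDerivAt.add (hg x).hasFDerivAt).fderiv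
  have h2 : (fun y => f y + g y) = f + g := rfl
  rw [h2, h]; rfl

theorem d2_add {f g : R2 → ℝ} (hf : Differentiable ℝ f) (hg : Differentiable ℝ g) (x : R2) :
    d2 (fun y => f y + g y) x = d2 f x + d2 g x := by
  unfold d2
  have h := ((hf x).hasFDerivAt.add (hg x).hasFDerivAt).fderiv
  have h2 : (fun y => f y + g y) = f + g := rfl
  rw [h2, h]; rfl

theorem comp_fd {lam : ℝ → ℝ} (hl : Differentiable ℝ lam) {q : R2 → ℝ} (hq : Differentiable ℝ q)
    (c : ℝ) (x v : R2) : fderiv ℝ (fun y => lam (q y * c)) x v =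
      deriv lam (q x * c) * (fderiv ℝ q x v * c) := by
  have h1 : HasFDerivAt (fun y => q y * c) (c • fderiv ℝ q x) x := (hq x).hasFDerivAt.mul_const c
  have h2 := (hl (q x * c)).hasDerivAt.comp_hasFDerivAt x h1
  have h3 : (fun y => lam (q y * c)) = lam ∘ fun y => q y * c := rfl
  rw [h3, h2.fderiv]
  simp only [_root_.smul_apply, smul_eq_mul]; ring

/-- `|du|^2`. -/
noncomputable def q (u : R2 → ℝ) (x : R2) : ℝ := d1 u x * d1 u x + d2 u x * d2 u x

theorem q_smooth {u : R2 → ℝ} (hu : ContDiff ℝ (⊤ : ℕ∞) u) : ContDiff ℝ (⊤ : ℕ∞) (q u) :=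
  ((d1_smooth hu).mul (d1_smooth hu)).add ((d2_smooth hu).mul (d2_smooth hu))

theorem d1_q {u : R2 → ℝ} (hu : ContDiff ℝ (⊤ : ℕ∞) u) (x : R2) :
    d1 (q u) x = 2 * d1 u x * d1 (d1 u) x + 2 * d2 u x * d1 (d2 u) x := by
  have a1 := smooth_diff (d1_smooth hu)
  have a2 := smooth_diff (d2_smooth hu)
  have h : q u = fun y => d1 u y * d1 u y + d2 u y * d2 u y := rfl
  rw [h, d1_add (f := fun y => d1 u y * d1 u y) (g := fun y => d2 u y * d2 u y)
    (a1.mul a1) (a2.mul a2), d1_mul a1 a1, d1_mul a2 a2]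
  ring

theorem d2_q {u : R2 → ℝ} (hu : ContDiff ℝ (⊤ : ℕ∞) u) (x : R2) :
    d2 (q u) x = 2 * d1 u x * d2 (d1 u) x + 2 * d2 u x * d2 (d2 u) x := by
  have a1 := smooth_diff (d1_smooth hu)
  have a2 := smooth_diff (d2_smooth hu)
  have h : q u = fun y => d1 u y * d1 u y + d2 u y * d2 u y := rfl
  rw [h, d2_add (f := fun y => d1 u y * d1 u y) (g := fun y => d2 u y * d2 u y)
    (a1.mul a1) (a2.mul a2), d2_mul a1 a1, d2_mul a2 a2]
  ring

end Pool.W4b1b5d.H13
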