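import Pool.Agent.W_4b1b5d_h13.RectB

set_option autoImplicit false

open Set Filter MeasureTheory Topology

namespace Pool.W4b1b5d.H13

/-- the truncated field. -/
noncomputable def F (lam : ℝ → ℝ) (u w : R2 → ℝ) (c : ℝ) (x : R2) : ℝ := lam (q u x * c) * w x

theorem F_smooth {lam : ℝ → ℝ} (hl : ContDiff ℝ (⊤ : ℕ∞) lam) {u w : R2 → ℝ}
    (hu : ContDiff ℝ (⊤ : ℕ∞) u) (hw : ContDiff ℝ (⊤ : ℕ∞) w) (c : ℝ) :
    ContDiff ℝ (⊤ : ℕ∞) (F lam u w c) :=
  (hl.comp ((q_smooth hu).mul contDiff_const)).mul hw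

theorem q_zero {u : R2 → ℝ} {x : R2} (h : fderiv ℝ u x = 0) : q u x = 0 := by
  unfold q d1 d2; rw [h]; simp

theorem F_near {lam : ℝ → ℝ} (h0 : ∀ s ≤ 1, lam s = 0) {u w : R2 → ℝ}
    (hu : ContDiff ℝ (⊤ : ℕ∞) u) (c : ℝ) {S : Set R2} (hfr : ∀ x ∈ frontier S, fderiv ℝ u x = 0)
    (x : R2) (hx : x ∈ frontier S) : F lam u w c =ᶠ[𝓝 x] fun _ => 0 := by
  have hq : q u x * c < 1 := by rw [q_zero (hfr x hx)]; norm_num
  have hc : Continuous fun y => q u y * c := (q_smooth hu).continuous.mul continuous_const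
  filter_upwards [hc.continuousAt.eventually_lt continuousAt_const hq] with y hy
  simp only [F]
  rw [h0 _ hy.le, zero_mul]

theorem P_deriv {lam : ℝ → ℝ} (hl : ContDiff ℝ (⊤ : ℕ∞) lam) (h0 : ∀ s ≤ 1, lam s = 0)
    {u w : R2 → ℝ} (hu : ContDiff ℝ (⊤ : ℕ∞) u) (hw : ContDiff ℝ (⊤ : ℕ∞) w) (c : ℝ)
    {S : Set R2} (hS : IsOpen S) (hfr : ∀ x ∈ frontier S, fderiv ℝ u x = 0) (x : R2) :
    HasFDerivAt (S.indicator (F lam u w c)) (S.indicator (fderiv ℝ (F lam u w c)) x) x :=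
  ind_deriv hS (smooth_diff (F_smooth hl hu hw c)) (F_near h0 hu c hfr) x

theorem P_cont {lam : ℝ → ℝ} (hl : ContDiff ℝ (⊤ : ℕ∞) lam) (h0 : ∀ s ≤ 1, lam s = 0)
    {u w : R2 → ℝ} (hu : ContDiff ℝ (⊤ : ℕ∞) u) (hw : ContDiff ℝ (⊤ : ℕ∞) w) (c : ℝ)
    {S : Set R2} (hS : IsOpen S) (hfr : ∀ x ∈ frontier S, fderiv ℝ u x = 0) :
    Continuous (S.indicator (F lam u w c)) :=
  continuous_iff_continuousAt.2 fun x => (P_deriv hl h0 hu hw c hS hfr x).continuousAt

theorem dP {u : R2 → ℝ} {lam : ℝ → ℝ} (hl : ContDiff ℝ (⊤ : ℕ∞) lam)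
    (hu : ContDiff ℝ (⊤ : ℕ∞) u) (c : ℝ) (x : R2) :
    fderiv ℝ (F lam u (d2 u) c) x (1, 0) - fderiv ℝ (F lam u (d1 u) c) x (0, 1) =
      deriv lam (q u x * c) * c * (d1 (q u) x * d2 u x - d2 (q u) x * d1 u x) := by
  have hld : Differentiable ℝ lam := hl.differentiable (by simp)
  have hqd := smooth_diff (q_smooth hu)
  have hA : Differentiable ℝ (fun y => lam (q u y * c)) :=
    smooth_diff (hl.comp ((q_smooth hu).mul contDiff_const))
  have h1 : fderiv ℝ (F lam u (d2 u) c) x (1, 0) =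
      d1 (fun y => lam (q u y * c)) x * d2 u x + lam (q u x * c) * d1 (d2 u) x :=
    d1_mul (f := fun y => lam (q u y * c)) (g := d2 u) hA (smooth_diff (d2_smooth hu)) x
  have h2 : fderiv ℝ (F lam u (d1 u) c) x (0, 1) =
      d2 (fun y => lam (q u y * c)) x * d1 u x + lam (q u x * c) * d2 (d1 u) x :=
    d2_mul (f := fun y => lam (q u y * c)) (g := d1 u) hA (smooth_diff (d1_smooth hu)) x
  have h3 : d1 (fun y => lam (q u y * c)) x = deriv lam (q u x * c) * (d1 (q u) x * c) :=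
    comp_fd hld hqd c x (1, 0)
  have h4 : d2 (fun y => lam (q u y * c)) x = deriv lam (q u x * c) * (d2 (q u) x * c) :=
    comp_fd hld hqd c x (0, 1)
  rw [h1, h2, h3, h4, d12_comm hu]
  ring

theorem dP_bound {u : R2 → ℝ} {lam : ℝ → ℝ} (hl : ContDiff ℝ (⊤ : ℕ∞) lam)
    (hu : ContDiff ℝ (⊤ : ℕ∞) u) {c : ℝ} (hc : 0 ≤ c) (x : R2) {L K : ℝ} (hL0 : 0 ≤ L)
    (hL : ∀ s, |deriv lam s| ≤ L) (hz : ∀ s, (s < 1 ∨ 2 < s) → deriv lam s = 0)
    (h11 : |d1 (d1 u) x| ≤ K) (h12 : |d1 (d2 u) x| ≤ K) (h22 : |d2 (d2 u) x| ≤ K) :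
    |fderiv ℝ (F lam u (d2 u) c) x (1, 0) - fderiv ℝ (F lam u (d1 u) c) x (0, 1)| ≤
      8 * K * L := by
  have hK : 0 ≤ K := (abs_nonneg _).trans h11
  rw [dP hl hu]
  by_cases h : q u x * c < 1 ∨ 2 < q u x * c
  · rw [hz _ h]; simp; positivity
  · push Not at h
    have hq0 : 0 ≤ q u x := by
      unfold q; nlinarith [mul_self_nonneg (d1 u x), mul_self_nonneg (d2 u x)]
    have hmain : |d1 (q u) x * d2 u x - d2 (q u) x * d1 u x| ≤ 4 * K * q u x := by
      rw [d1_q hu, d2_q hu, ← d12_comm hu]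
      have e : (2 * d1 u x * d1 (d1 u) x + 2 * d2 u x * d1 (d2 u) x) * d2 u x -
          (2 * d1 u x * d1 (d2 u) x + 2 * d2 u x * d2 (d2 u) x) * d1 u x =
          (2 * (d1 u x * d2 u x)) * (d1 (d1 u) x - d2 (d2 u) x) +
          2 * (d2 u x * d2 u x - d1 u x * d1 u x) * d1 (d2 u) x := by ring
      rw [e]
      have a1 : |2 * (d1 u x * d2 u x)| ≤ q u x := by
        unfold q
        rw [abs_le]
        constructor <;> nlinarith [sq_nonneg (d1 u x + d2 u x), sq_nonneg (d1 u x - d2 u x)]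
      have a2 : |d2 u x * d2 u x - d1 u x * d1 u x| ≤ q u x := by
        unfold q
        rw [abs_le]
        constructor <;> nlinarith [sq_nonneg (d1 u x), sq_nonneg (d2 u x)]
      have a3 : |d1 (d1 u) x - d2 (d2 u) x| ≤ 2 * K := by
        have := abs_sub (d1 (d1 u) x) (d2 (d2 u) x)
        linarith
      calc _ ≤ |(2 * (d1 u x * d2 u x)) * (d1 (d1 u) x - d2 (d2 u) x)| +
            |2 * (d2 u x * d2 u x - d1 u x * d1 u x) * d1 (d2 u) x| := abs_add_le _ _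
        _ ≤ q u x * (2 * K) + 2 * q u x * K := by
            have b1 : |(2 * (d1 u x * d2 u x)) * (d1 (d1 u) x - d2 (d2 u) x)| ≤
                q u x * (2 * K) := by
              rw [abs_mul (2 * (d1 u x * d2 u x))]
              gcongr
            have b2 : |2 * (d2 u x * d2 u x - d1 u x * d1 u x) * d1 (d2 u) x| ≤
                2 * q u x * K := by
              rw [abs_mul (2 * _), abs_mul (2 : ℝ), abs_two]
              gcongr
            linarith
        _ = 4 * K * q u x := by ring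
    rw [abs_mul, abs_mul, abs_of_nonneg hc]
    calc |deriv lam (q u x * c)| * c * |d1 (q u) x * d2 u x - d2 (q u) x * d1 u x|
        ≤ L * c * (4 * K * q u x) := by gcongr; exact hL _
      _ = 4 * K * L * (q u x * c) := by ring
      _ ≤ 4 * K * L * 2 := by
          have := h.2
          gcongr
      _ = 8 * K * L := by ring

end Pool.W4b1b5d.H13
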