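import Pool.Agent.W_4b1b5d_h13.RectC

set_option autoImplicit false

open Set Filter MeasureTheory Topology

namespace Pool.W4b1b5d.H13

/-- the sequence of constants. -/
noncomputable def cn (n : ℕ) : ℝ := (n : ℝ)

theorem cn_ev {q0 : ℝ} (h : 0 < q0) (M : ℝ) : ∀ᶠ n in atTop, M < q0 * cn n := by
  have : Tendsto (fun n : ℕ => q0 * cn n) atTop atTop :=
    (tendsto_natCast_atTop_atTop (R := ℝ)).const_mul_atTop h
  exact this.eventually_gt_atTop M

theorem q_nonneg (u : R2 → ℝ) (x : R2) : 0 ≤ q u x := by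
  unfold q; nlinarith [mul_self_nonneg (d1 u x), mul_self_nonneg (d2 u x)]

theorem q_zero_iff {u : R2 → ℝ} {x : R2} (h : q u x = 0) : d1 u x = 0 ∧ d2 u x = 0 := by
  unfold q at h
  constructor <;> nlinarith [mul_self_nonneg (d1 u x), mul_self_nonneg (d2 u x)]

/-- pointwise limit of the truncated field -/
theorem F_lim {lam : ℝ → ℝ} (h1 : ∀ s, 2 ≤ s → lam s = 1) {u w : R2 → ℝ} {S : Set R2}
    (hw : ∀ x, q u x = 0 → w x = 0) (x : R2) :
    Tendsto (fun n => S.indicator (F lam u w (cn n)) x) atTop (𝓝 (S.indicator w x)) := by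
  by_cases hx : x ∈ S
  · simp only [indicator_of_mem hx]
    rcases eq_or_lt_of_le (q_nonneg u x) with hq | hq
    · have : ∀ n, F lam u w (cn n) x = w x := fun n => by simp [F, hw x hq.symm]
      simp only [this]; exact tendsto_const_nhds
    · refine tendsto_const_nhds.congr' ?_
      filter_upwards [cn_ev hq 2] with n hn
      simp only [F]; rw [h1 _ hn.le, one_mul]
  · simp only [indicator_of_notMem hx]; exact tendsto_const_nhds

theorem F_le {lam : ℝ → ℝ} (hb : ∀ s, |lam s| ≤ 1) (u w : R2 → ℝ) (S : Set R2) (c : ℝ) (x : R2) :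
    |S.indicator (F lam u w c) x| ≤ |w x| := by
  by_cases hx : x ∈ S
  · rw [indicator_of_mem hx]
    simp only [F, abs_mul]
    exact mul_le_of_le_one_left (abs_nonneg _) (hb _)
  · rw [indicator_of_notMem hx]; simp

/-- limit of the integrals over a segment -/
theorem line_lim {lam : ℝ → ℝ} (hl : ContDiff ℝ (⊤ : ℕ∞) lam) (h0 : ∀ s ≤ 1, lam s = 0)
    (h1 : ∀ s, 2 ≤ s → lam s = 1) (hb : ∀ s, |lam s| ≤ 1)
    {u w : R2 → ℝ} (hu : ContDiff ℝ (⊤ : ℕ∞) u) (hw : ContDiff ℝ (⊤ : ℕ∞) w)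
    {S : Set R2} (hS : IsOpen S) (hfr : ∀ x ∈ frontier S, fderiv ℝ u x = 0)
    (hwz : ∀ x, q u x = 0 → w x = 0) {g : ℝ → R2} (hg : Continuous g) (a b : ℝ) :
    Tendsto (fun n => ∫ s in a..b, S.indicator (F lam u w (cn n)) (g s)) atTop
      (𝓝 (∫ s in a..b, S.indicator w (g s))) := by
  refine intervalIntegral.tendsto_integral_filter_of_dominated_convergence
    (fun s => |w (g s)|) ?_ ?_ ?_ ?_
  · exact Eventually.of_forall fun n =>
      ((P_cont hl h0 hu hw (cn n) hS hfr).comp hg).aestronglyMeasurable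
  · exact Eventually.of_forall fun n => Eventually.of_forall fun s _ => by
      rw [Real.norm_eq_abs]; exact F_le hb u w S _ _
  · exact ((hw.continuous.comp hg).abs).intervalIntegrable _ _
  · exact Eventually.of_forall fun s _ => F_lim h1 hwz (g s)

theorem area_lim {lam : ℝ → ℝ} (hl : ContDiff ℝ (⊤ : ℕ∞) lam) (h0 : ∀ s ≤ 1, lam s = 0)
    (hz : ∀ s, (s < 1 ∨ 2 < s) → deriv lam s = 0) {L : ℝ} (hL0 : 0 ≤ L)
    (hL : ∀ s, |deriv lam s| ≤ L)
    {u : R2 → ℝ} (hu : ContDiff ℝ (⊤ : ℕ∞) u)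
    {S : Set R2} (hS : IsOpen S) (a b : R2) :
    (∀ n, IntegrableOn (fun x => S.indicator (fderiv ℝ (F lam u (d2 u) (cn n))) x (1, 0) +
      (-(S.indicator (fderiv ℝ (F lam u (d1 u) (cn n))) x)) (0, 1)) (Icc a b)) ∧
    Tendsto (fun n => ∫ x in Icc a b, S.indicator (fderiv ℝ (F lam u (d2 u) (cn n))) x (1, 0) +
      (-(S.indicator (fderiv ℝ (F lam u (d1 u) (cn n))) x)) (0, 1)) atTop (𝓝 0) := by
  have hcn : ∀ n, 0 ≤ cn n := fun n => Nat.cast_nonneg n
  have hK : ∀ w : R2 → ℝ, Continuous w → ∃ K, ∀ x ∈ Icc a b, |w x| ≤ K := fun w hw => by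
    obtain ⟨K, hK⟩ := (isCompact_Icc (a := a) (b := b)).exists_bound_of_continuousOn hw.continuousOn
    exact ⟨K, fun x hx => by simpa using hK x hx⟩
  obtain ⟨K1, hK1⟩ := hK _ (d1_smooth (d1_smooth hu)).continuous
  obtain ⟨K2, hK2⟩ := hK _ (d1_smooth (d2_smooth hu)).continuous
  obtain ⟨K3, hK3⟩ := hK _ (d2_smooth (d2_smooth hu)).continuous
  set K := max K1 (max K2 K3) with hKdef
  have heq : ∀ n x, S.indicator (fderiv ℝ (F lam u (d2 u) (cn n))) x (1, 0) +
      (-(S.indicator (fderiv ℝ (F lam u (d1 u) (cn n))) x)) (0, 1) =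
      S.indicator (fun y => fderiv ℝ (F lam u (d2 u) (cn n)) y (1, 0) -
        fderiv ℝ (F lam u (d1 u) (cn n)) y (0, 1)) x := by
    intro n x
    by_cases hx : x ∈ S
    · simp only [indicator_of_mem hx, _root_.neg_apply]; ring
    · simp only [indicator_of_notMem hx]; simp
  have hbd : ∀ n, ∀ x ∈ Icc a b, |S.indicator (fun y => fderiv ℝ (F lam u (d2 u) (cn n)) y (1, 0) -
        fderiv ℝ (F lam u (d1 u) (cn n)) y (0, 1)) x| ≤ 8 * K * L := by
    intro n x hx
    have b1 : |d1 (d1 u) x| ≤ K := (hK1 x hx).trans (le_max_left _ _)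
    have b2 : |d1 (d2 u) x| ≤ K := (hK2 x hx).trans ((le_max_left _ _).trans (le_max_right _ _))
    have b3 : |d2 (d2 u) x| ≤ K := (hK3 x hx).trans ((le_max_right _ _).trans (le_max_right _ _))
    have hK0 : 0 ≤ K := (abs_nonneg _).trans b1
    by_cases hS' : x ∈ S
    · rw [indicator_of_mem hS']
      exact dP_bound hl hu (hcn n) x hL0 hL hz b1 b2 b3
    · rw [indicator_of_notMem hS']; simp; positivity
  have hm : ∀ n, AEStronglyMeasurable (S.indicator (fun y => fderiv ℝ (F lam u (d2 u) (cn n)) y (1, 0) -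
        fderiv ℝ (F lam u (d1 u) (cn n)) y (0, 1))) (volume.restrict (Icc a b)) := by
    intro n
    have c1 : Continuous fun y => fderiv ℝ (F lam u (d2 u) (cn n)) y (1, 0) :=
      (d1_smooth (F_smooth hl hu (d2_smooth hu) (cn n))).continuous
    have c2 : Continuous fun y => fderiv ℝ (F lam u (d1 u) (cn n)) y (0, 1) :=
      (d2_smooth (F_smooth hl hu (d1_smooth hu) (cn n))).continuous
    exact ((c1.sub c2).stronglyMeasurable.indicator hS.measurableSet).aestronglyMeasurable
  have hfin : volume (Icc a b) ≠ ⊤ := isCompact_Icc.measure_lt_top.ne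
  have hci : IntegrableOn (fun _ : R2 => 8 * K * L) (Icc a b) volume :=
    integrableOn_const hfin
  have hae : ∀ n, ∀ᵐ x ∂(volume.restrict (Icc a b)), ‖S.indicator (fun y =>
      fderiv ℝ (F lam u (d2 u) (cn n)) y (1, 0) -
        fderiv ℝ (F lam u (d1 u) (cn n)) y (0, 1)) x‖ ≤ 8 * K * L := fun n =>
    (ae_restrict_iff' measurableSet_Icc).2 (Eventually.of_forall fun x hx => by
      rw [Real.norm_eq_abs]; exact hbd n x hx)
  refine ⟨fun n => ?_, ?_⟩
  · simp only [heq]
    exact Integrable.mono' hci (hm n) (hae n)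
  · simp only [heq]
    have := tendsto_integral_of_dominated_convergence (μ := volume.restrict (Icc a b))
      (F := fun n => S.indicator (fun y => fderiv ℝ (F lam u (d2 u) (cn n)) y (1, 0) -
        fderiv ℝ (F lam u (d1 u) (cn n)) y (0, 1))) (f := fun _ => 0)
      (fun _ => 8 * K * L) hm hci hae (Eventually.of_forall fun x => ?_)
    · simpa using this
    · by_cases hx : x ∈ S
      · simp only [indicator_of_mem hx]
        refine tendsto_const_nhds.congr' ?_
        rcases eq_or_lt_of_le (q_nonneg u x) with hq | hq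
        · refine Eventually.of_forall fun n => ?_
          show (0 : ℝ) = fderiv ℝ (F lam u (d2 u) (cn n)) x (1, 0) -
            fderiv ℝ (F lam u (d1 u) (cn n)) x (0, 1)
          rw [dP hl hu, (q_zero_iff hq.symm).1, (q_zero_iff hq.symm).2]; simp
        · filter_upwards [cn_ev hq 2] with n hn
          rw [dP hl hu, hz _ (Or.inr hn)]; simp
      · simp only [indicator_of_notMem hx]; exact tendsto_const_nhds

end Pool.W4b1b5d.H13
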