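import Pool.Agent.W_4b1b5d_h13.RectD

set_option autoImplicit false

open Set Filter MeasureTheory Topology

namespace Pool.W4b1b5d.H13

/-- The form `1_S du` is closed (over rectangles), if `du` vanishes on the frontier of `S`. -/
theorem rect_le {u : R2 → ℝ} (hu : ContDiff ℝ (⊤ : ℕ∞) u) {S : Set R2} (hS : IsOpen S)
    (hfr : ∀ x ∈ frontier S, fderiv ℝ u x = 0) {a b c d : ℝ} (hab : a ≤ b) (hcd : c ≤ d) :
    (∫ s in a..b, S.indicator (d1 u) (s, c)) + (∫ t in c..d, S.indicator (d2 u) (b, t)) =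
      (∫ t in c..d, S.indicator (d2 u) (a, t)) + ∫ s in a..b, S.indicator (d1 u) (s, d) := by
  obtain ⟨lam, hl, h0, h1, hb, hz, L, hL0, hL⟩ := exists_cut
  obtain ⟨hint, hlim⟩ := area_lim hl h0 hz hL0 hL hu hS (a, c) (b, d)
  have hw1 : ∀ x, q u x = 0 → d1 u x = 0 := fun x hx => (q_zero_iff hx).1
  have hw2 : ∀ x, q u x = 0 → d2 u x = 0 := fun x hx => (q_zero_iff hx).2
  have hdiv : ∀ n, (∫ x in Icc ((a, c) : R2) (b, d),
      S.indicator (fderiv ℝ (F lam u (d2 u) (cn n))) x (1, 0) +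
      (-(S.indicator (fderiv ℝ (F lam u (d1 u) (cn n))) x)) (0, 1)) =
      (((∫ s in a..b, -S.indicator (F lam u (d1 u) (cn n)) (s, d)) -
        ∫ s in a..b, -S.indicator (F lam u (d1 u) (cn n)) (s, c)) +
        ∫ t in c..d, S.indicator (F lam u (d2 u) (cn n)) (b, t)) -
        ∫ t in c..d, S.indicator (F lam u (d2 u) (cn n)) (a, t) := fun n =>
    integral_divergence_prod_Icc_of_hasFDerivAt_of_le
      (S.indicator (F lam u (d2 u) (cn n)))
      (fun x => -S.indicator (F lam u (d1 u) (cn n)) x)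
      (S.indicator (fderiv ℝ (F lam u (d2 u) (cn n))))
      (fun x => -(S.indicator (fderiv ℝ (F lam u (d1 u) (cn n))) x)) (a, c) (b, d) ⟨hab, hcd⟩
      (P_cont hl h0 hu (d2_smooth hu) _ hS hfr).continuousOn
      (P_cont hl h0 hu (d1_smooth hu) _ hS hfr).neg.continuousOn
      (fun x _ => P_deriv hl h0 hu (d2_smooth hu) _ hS hfr x)
      (fun x _ => (P_deriv hl h0 hu (d1_smooth hu) _ hS hfr x).neg) (hint n)
  have g1 : ∀ e : ℝ, Continuous fun s : ℝ => ((s, e) : R2) := fun e => by fun_prop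
  have g2 : ∀ e : ℝ, Continuous fun s : ℝ => ((e, s) : R2) := fun e => by fun_prop
  have l1 := line_lim hl h0 h1 hb hu (d1_smooth hu) hS hfr hw1 (g1 d) a b
  have l2 := line_lim hl h0 h1 hb hu (d1_smooth hu) hS hfr hw1 (g1 c) a b
  have l3 := line_lim hl h0 h1 hb hu (d2_smooth hu) hS hfr hw2 (g2 b) c d
  have l4 := line_lim hl h0 h1 hb hu (d2_smooth hu) hS hfr hw2 (g2 a) c d
  simp only [hdiv, intervalIntegral.integral_neg] at hlim
  have l5 := ((l1.neg.sub l2.neg).add l3).sub l4
  have := tendsto_nhds_unique l5 hlim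
  linarith

theorem rect {u : R2 → ℝ} (hu : ContDiff ℝ (⊤ : ℕ∞) u) {S : Set R2} (hS : IsOpen S)
    (hfr : ∀ x ∈ frontier S, fderiv ℝ u x = 0) (a b c d : ℝ) :
    (∫ s in a..b, S.indicator (d1 u) (s, c)) + (∫ t in c..d, S.indicator (d2 u) (b, t)) =
      (∫ t in c..d, S.indicator (d2 u) (a, t)) + ∫ s in a..b, S.indicator (d1 u) (s, d) := by
  rcases le_total a b with hab | hab <;> rcases le_total c d with hcd | hcd
  · exact rect_le hu hS hfr hab hcd
  · have := rect_le hu hS hfr hab hcd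
    rw [intervalIntegral.integral_symm d c, intervalIntegral.integral_symm d c]
    linarith
  · have := rect_le hu hS hfr hab hcd
    rw [intervalIntegral.integral_symm b a, intervalIntegral.integral_symm b a]
    linarith
  · have := rect_le hu hS hfr hab hcd
    rw [intervalIntegral.integral_symm b a, intervalIntegral.integral_symm b a,
      intervalIntegral.integral_symm d c, intervalIntegral.integral_symm d c]
    linarith

end Pool.W4b1b5d.H13
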